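import Pool.Agent.H.MP_6a1d6a_ag.KC.Def
import Pool.Agent.H.MP_6a1d6a_ag.CC.Nef

/-!
MP_6a1d6a_ag/KC, module Atl: an atlas with compatible norms with plurisubharmonic logarithm makes the cotangent bundle
nef. From `CC.nef_of_models` with `M j = (ch j).target`, `ψ j = (ch j).symm`: `hchart` with `φ = ch j`; in `hcomp` the charts
`φ`, `φ'` are restrictions of `ch j`, `ch k` (`φ.symm x = (ch j).symm x` on `φ.target`, so for `y ∈ φ.source`:
`y = (ch j).symm (φ y)`, `y ∈ (ch j).source`, `ch j y = φ y`), and `φ' ∘ φ.symm = ch k ∘ (ch j).symm` near `φ y`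
(`Filter.EventuallyEq.fderiv_eq`).
-/

set_option autoImplicit false

open Set Filter Topology Metric
open scoped ContDiff Manifold

namespace Pool.Agent.Nef6.KC

/-- a chart `φ` with `Inv` is a restriction of `c` -/
theorem Atl_eq {V : Type} [NormedAddCommGroup V] [NormedSpace ℂ V]
    {Y : Type} [TopologicalSpace Y] [ChartedSpace V Y]
    {c φ : OpenPartialHomeomorph Y V} (h : Inv c.target c.symm φ) {y : Y} (hy : y ∈ φ.source) :
    y ∈ c.source ∧ c y = φ y := by
  have h1 : φ y ∈ φ.target := φ.map_source hy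
  have h2 : c.symm (φ y) = y := by rw [h.2.2 _ h1, φ.left_inv hy]
  have h3 : φ y ∈ c.target := h.2.1 h1
  refine ⟨?_, ?_⟩
  · rw [← h2]
    exact c.map_target h3
  · conv_lhs => rw [← h2]
    exact c.right_inv h3

theorem nef_of_atlas {V : Type} [NormedAddCommGroup V] [NormedSpace ℂ V] [CompleteSpace V]
    {Y : Type} [TopologicalSpace Y] [ChartedSpace V Y] [IsManifold 𝓘(ℂ, V) ω Y]
    {J : Type} (ch : J → OpenPartialHomeomorph Y V) (N : J → V → V → ℝ)
    (hch : ∀ j, ch j ∈ Charts V Y) (hcov : ∀ y, ∃ j, y ∈ (ch j).source)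
    (hloc : ∀ j, ∀ x ∈ (ch j).target, ∃ U ⊆ (ch j).target, x ∈ U ∧ LocNorm (N j) U)
    (hcomp : ∀ j k, ∀ y ∈ (ch j).source, y ∈ (ch k).source →
      ∀ v, N k (ch k y) (fderiv ℂ (ch k ∘ (ch j).symm) (ch j y) v) = N j (ch j y) v) :
    CotangentNef V Y := by
  refine CC.nef_of_models (fun j => (ch j).target) (fun j => (ch j).symm) N ?_ ?_ hloc ?_
  · intro y
    obtain ⟨j, hj⟩ := hcov y
    exact ⟨j, ch j y, (ch j).map_source hj, (ch j).left_inv hj⟩
  · intro j x hx
    exact ⟨ch j, ⟨hch j, Subset.rfl, fun z _ => rfl⟩, hx⟩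
  · intro j k φ φ' hφ hφ' y hy hy' v
    obtain ⟨h1, h2⟩ := Atl_eq hφ hy
    obtain ⟨h3, h4⟩ := Atl_eq hφ' hy'
    have h5 : (φ' ∘ φ.symm) =ᶠ[𝓝 (φ y)] (ch k ∘ (ch j).symm) := by
      have hT : φ.target ∈ 𝓝 (φ y) := φ.open_target.mem_nhds (φ.map_source hy)
      have hS : ∀ᶠ x in 𝓝 (φ y), φ.symm x ∈ φ'.source := by
        refine (φ.continuousAt_symm (φ.map_source hy)).eventually_mem ?_
        rw [φ.left_inv hy]
        exact φ'.open_source.mem_nhds hy'
      filter_upwards [hT, hS] with x hx hx'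
      have h6 : (ch j).symm x = φ.symm x := hφ.2.2 x hx
      show φ' (φ.symm x) = ch k ((ch j).symm x)
      rw [h6]
      exact (Atl_eq hφ' hx').2.symm
    rw [h5.fderiv_eq, ← h2, ← h4]
    exact hcomp j k y h1 h3 v

end Pool.Agent.Nef6.KC
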