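import Pool.Agent.H.MP_6a1d6a_ag.KC.Def

/-!
MP_6a1d6a_ag/KC, module Aut: automorphisms of the unit ball of a complex inner product space `F`.

All statements were checked numerically. Write `[a, y] = inner ℂ a y` (linear in `y`), `s = sa a`, `s² = 1 - ‖a‖²`,
`N y = s y + ([a, y]/(1 + s) - 1) a`, `δ = del a y = 1 - [a, y]`, `aut a y = N y / δ`, `N' w = s w + ([a, w]/(1 + s)) a`,
`aut' a y w = N' w / δ + [a, w] N y / δ²`. For `(x₀, y)`, `(x₀', y')` in `ℂ × F` put `N (x₀, y) = s y + ([a, y]/(1 + s) - x₀) a`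
and `δ (x₀, y) = x₀ - [a, y]`. Key identity (expand; use `‖a‖² = (1 - s)(1 + s)`):
`conj (δ (x₀', y')) δ (x₀, y) - [N (x₀', y'), N (x₀, y)] = s² (conj x₀' x₀ - [y', y])`.
Three cases are needed: `(1, y), (1, y)` gives `aut_one_sub`; `(1, y)` and `(0, w)` (so `δ = -[a, w]`, `N = N' w`) gives
`[N y, N' w] = s² [y, w] - conj δ [a, w]`, hence `aut_conn`; `(0, w), (0, w)` gives `‖N' w‖² = |[a, w]|² + s² ‖w‖²`, and with the
others `aut_hb`.
* `del_ne`, `del_re`: `|[a, y]| ≤ ‖a‖ ‖y‖ < 1`.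
* `aut'_ne`: from `aut_hb` and `hb_pos`.
-/

set_option autoImplicit false

open Set Filter Topology Metric
open scoped ContDiff Manifold

namespace Pool.Agent.Nef6.KC

variable {F : Type} [NormedAddCommGroup F] [InnerProductSpace ℂ F]

/-- The numerator of the automorphism, homogeneous form. -/
private noncomputable def AutN (a y : F) (x : ℂ) : F :=
  (sa a : ℂ) • y + (inner ℂ a y / (1 + sa a) - x) • a

private theorem Aut_inner_lt {a y : F} (ha : ‖a‖ < 1) (hy : ‖y‖ < 1) :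
    ‖(inner ℂ a y : ℂ)‖ < 1 := by
  have h1 : ‖(inner ℂ a y : ℂ)‖ ≤ ‖a‖ * ‖y‖ := norm_inner_le_norm a y
  have h2 : ‖a‖ * ‖y‖ < 1 := by
    nlinarith [norm_nonneg a, norm_nonneg y]
  linarith

theorem del_re {a y : F} (ha : ‖a‖ < 1) (hy : ‖y‖ < 1) : 0 < (del a y).re := by
  have h1 := Aut_inner_lt ha hy
  have h2 := Complex.re_le_norm (inner ℂ a y : ℂ)
  simp only [del, Complex.sub_re, Complex.one_re]
  linarith

theorem del_ne {a y : F} (ha : ‖a‖ < 1) (hy : ‖y‖ < 1) : del a y ≠ 0 := by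
  intro h
  have h1 := del_re ha hy
  rw [h] at h1
  simp at h1

theorem sa_pos {a : F} (ha : ‖a‖ < 1) : 0 < sa a := by
  unfold sa
  apply Real.sqrt_pos.2
  nlinarith [norm_nonneg a]

private theorem Aut_sa_sq {a : F} (ha : ‖a‖ < 1) : sa a ^ 2 = 1 - ‖a‖ ^ 2 := by
  unfold sa
  apply Real.sq_sqrt
  nlinarith [norm_nonneg a]

private theorem Aut_norm_sq {a : F} (ha : ‖a‖ < 1) : ((‖a‖ : ℝ) : ℂ) ^ 2 = 1 - (sa a : ℂ) ^ 2 := by
  have h := Aut_sa_sq ha
  have h2 : ‖a‖ ^ 2 = 1 - sa a ^ 2 := by linarith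
  exact_mod_cast h2

private theorem Aut_one_add {a : F} (ha : ‖a‖ < 1) : (1 + (sa a : ℂ)) ≠ 0 := by
  have h := sa_pos ha
  have h2 : (1 + sa a) ≠ 0 := by positivity
  exact_mod_cast h2

private theorem Aut_inner_self (a : F) : (inner ℂ a a : ℂ) = ((‖a‖ : ℝ) : ℂ) ^ 2 := by
  simp [inner_self_eq_norm_sq_to_K]

private theorem Aut_key {a : F} (ha : ‖a‖ < 1) (y y' : F) (x x' : ℂ) :
    (starRingEnd ℂ) (x' - inner ℂ a y') * (x - inner ℂ a y) -
        inner ℂ (AutN a y' x') (AutN a y x) =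
      (sa a : ℂ) ^ 2 * ((starRingEnd ℂ) x' * x - inner ℂ y' y) := by
  have h1 := Aut_norm_sq ha
  have h2 := Aut_one_add ha
  have h3 : (inner ℂ y' a : ℂ) = (starRingEnd ℂ) (inner ℂ a y') := (inner_conj_symm y' a).symm
  unfold AutN
  simp only [inner_add_left, inner_add_right, inner_smul_left, inner_smul_right, map_sub, map_div₀,
    map_add, map_one, Complex.conj_ofReal, Aut_inner_self, h1, h3]
  field_simp
  ring

private theorem Aut_aut (a y : F) : aut a y = (del a y)⁻¹ • AutN a y 1 := rfl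

private theorem Aut_aut' (a y w : F) : aut' a y w =
    (del a y)⁻¹ • AutN a w 0 + (inner ℂ a w / (del a y) ^ 2) • AutN a y 1 := by
  unfold aut' AutN
  rw [sub_zero]

/-- `(1, y), (1, y)` -/
private theorem Aut_key1 {a : F} (ha : ‖a‖ < 1) (y : F) :
    (inner ℂ (AutN a y 1) (AutN a y 1) : ℂ) = (starRingEnd ℂ) (del a y) * del a y -
      (sa a : ℂ) ^ 2 * ((1 - ‖y‖ ^ 2 : ℝ) : ℂ) := by
  have h := Aut_key ha y y 1 1
  rw [Aut_inner_self y] at h
  unfold del
  push_cast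
  rw [map_one] at h
  linear_combination -h

/-- `(1, y), (0, w)` -/
private theorem Aut_key2 {a : F} (ha : ‖a‖ < 1) (y w : F) :
    (inner ℂ (AutN a y 1) (AutN a w 0) : ℂ) = (sa a : ℂ) ^ 2 * inner ℂ y w -
      (starRingEnd ℂ) (del a y) * inner ℂ a w := by
  have h := Aut_key ha w y 0 1
  unfold del
  linear_combination -h

/-- `(0, w), (1, y)` -/
private theorem Aut_key3 {a : F} (ha : ‖a‖ < 1) (y w : F) :
    (inner ℂ (AutN a w 0) (AutN a y 1) : ℂ) = (sa a : ℂ) ^ 2 * inner ℂ w y -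
      del a y * (starRingEnd ℂ) (inner ℂ a w) := by
  have h := Aut_key ha y w 1 0
  unfold del
  rw [zero_sub, map_neg, map_zero] at h
  linear_combination -h

/-- `(0, w), (0, w)` -/
private theorem Aut_key4 {a : F} (ha : ‖a‖ < 1) (w : F) :
    (inner ℂ (AutN a w 0) (AutN a w 0) : ℂ) = (starRingEnd ℂ) (inner ℂ a w) * inner ℂ a w +
      (sa a : ℂ) ^ 2 * ((‖w‖ : ℝ) : ℂ) ^ 2 := by
  have h := Aut_key ha w w 0 0
  rw [zero_sub, map_neg, map_zero, Aut_inner_self w] at h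
  linear_combination -h

private theorem Aut_conj_ne {z : ℂ} (hz : z ≠ 0) : (starRingEnd ℂ) z ≠ 0 := by
  intro h
  exact hz ((map_eq_zero (starRingEnd ℂ)).1 h)

private theorem Aut_one_sub_C {a y : F} (ha : ‖a‖ < 1) (hy : ‖y‖ < 1) :
    ((1 - ‖aut a y‖ ^ 2 : ℝ) : ℂ) =
      (sa a : ℂ) ^ 2 * ((1 - ‖y‖ ^ 2 : ℝ) : ℂ) / ((starRingEnd ℂ) (del a y) * del a y) := by
  have hd := del_ne ha hy
  have hd' := Aut_conj_ne hd
  have h0 : ((‖aut a y‖ : ℝ) : ℂ) ^ 2 = (starRingEnd ℂ) (del a y)⁻¹ * ((del a y)⁻¹ *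
      inner ℂ (AutN a y 1) (AutN a y 1)) := by
    rw [← Aut_inner_self, Aut_aut, inner_smul_left, inner_smul_right]
  rw [Aut_key1 ha y, map_inv₀] at h0
  rw [Complex.ofReal_sub, Complex.ofReal_pow, h0, Complex.ofReal_one]
  field_simp
  ring

theorem aut_one_sub {a y : F} (ha : ‖a‖ < 1) (hy : ‖y‖ < 1) :
    1 - ‖aut a y‖ ^ 2 = (sa a / ‖del a y‖) ^ 2 * (1 - ‖y‖ ^ 2) := by
  have h := Aut_one_sub_C ha hy
  have hd := del_ne ha hy
  have hd2 : ‖del a y‖ ≠ 0 := norm_ne_zero_iff.2 hd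
  rw [Complex.conj_mul'] at h
  have h2 : 1 - ‖aut a y‖ ^ 2 = sa a ^ 2 * (1 - ‖y‖ ^ 2) / ‖del a y‖ ^ 2 := by
    exact_mod_cast h
  rw [h2]
  field_simp

theorem aut_lt {a y : F} (ha : ‖a‖ < 1) (hy : ‖y‖ < 1) : ‖aut a y‖ < 1 := by
  have h := aut_one_sub ha hy
  have h1 := sa_pos ha
  have h2 : 0 < ‖del a y‖ := norm_pos_iff.2 (del_ne ha hy)
  have h3 : 0 < 1 - ‖y‖ ^ 2 := by nlinarith [norm_nonneg y]
  have h4 : 0 < (sa a / ‖del a y‖) ^ 2 * (1 - ‖y‖ ^ 2) := by positivity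
  have h5 : ‖aut a y‖ ^ 2 < 1 := by linarith
  nlinarith [norm_nonneg (aut a y)]

theorem aut_self {a : F} (ha : ‖a‖ < 1) : aut a a = 0 := by
  have h1 := Aut_norm_sq ha
  have h2 := Aut_one_add ha
  rw [Aut_aut]
  have h : AutN a a 1 = 0 := by
    unfold AutN
    rw [← add_smul, Aut_inner_self, h1]
    have : (sa a : ℂ) + ((1 - (sa a : ℂ) ^ 2) / (1 + sa a) - 1) = 0 := by
      field_simp
      ring
    rw [this, zero_smul]
  rw [h, smul_zero]

private theorem Aut_Y {y : F} (hy : ‖y‖ < 1) : ((1 - ‖y‖ ^ 2 : ℝ) : ℂ) ≠ 0 := by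
  have h3 : 0 < 1 - ‖y‖ ^ 2 := by nlinarith [norm_nonneg y]
  exact_mod_cast h3.ne'

private theorem Aut_saC {a : F} (ha : ‖a‖ < 1) : (sa a : ℂ) ≠ 0 := by
  exact_mod_cast (sa_pos ha).ne'

theorem aut_conn {a y : F} (ha : ‖a‖ < 1) (hy : ‖y‖ < 1) (w : F) :
    inner ℂ a w / del a y +
        inner ℂ (aut a y) (aut' a y w) / ((1 - ‖aut a y‖ ^ 2 : ℝ) : ℂ) =
      inner ℂ y w / ((1 - ‖y‖ ^ 2 : ℝ) : ℂ) := by
  have hd := del_ne ha hy
  have hd' := Aut_conj_ne hd
  have hY := Aut_Y hy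
  have hs := Aut_saC ha
  rw [Aut_one_sub_C ha hy, Aut_aut', Aut_aut, inner_smul_left, inner_add_right, inner_smul_right,
    inner_smul_right, Aut_key1 ha y, Aut_key2 ha y w, map_inv₀]
  field_simp
  ring

private theorem Aut_hb_C (y w : F) : ((hb y w : ℝ) : ℂ) =
    ((‖w‖ : ℝ) : ℂ) ^ 2 / ((1 - ‖y‖ ^ 2 : ℝ) : ℂ) +
      (starRingEnd ℂ) (inner ℂ y w / ((1 - ‖y‖ ^ 2 : ℝ) : ℂ)) *
        (inner ℂ y w / ((1 - ‖y‖ ^ 2 : ℝ) : ℂ)) := by
  unfold hb
  rw [map_div₀, Complex.conj_ofReal, div_mul_div_comm, Complex.conj_mul']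
  push_cast
  ring

theorem aut_hb {a y : F} (ha : ‖a‖ < 1) (hy : ‖y‖ < 1) (w : F) :
    hb (aut a y) (aut' a y w) = hb y w := by
  have hd := del_ne ha hy
  have hd' := Aut_conj_ne hd
  have hY := Aut_Y hy
  have hs := Aut_saC ha
  have hc := aut_conn ha hy w
  have hc2 : inner ℂ (aut a y) (aut' a y w) / ((1 - ‖aut a y‖ ^ 2 : ℝ) : ℂ) =
      inner ℂ y w / ((1 - ‖y‖ ^ 2 : ℝ) : ℂ) - inner ℂ a w / del a y := by
    linear_combination hc
  apply Complex.ofReal_injective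
  rw [Aut_hb_C, Aut_hb_C, hc2, ← Aut_inner_self, Aut_one_sub_C ha hy, Aut_aut', inner_add_left,
    inner_add_right, inner_add_right, inner_smul_left, inner_smul_left, inner_smul_left,
    inner_smul_left, inner_smul_right, inner_smul_right, inner_smul_right, inner_smul_right,
    Aut_key1 ha y, Aut_key2 ha y w, Aut_key3 ha y w, Aut_key4 ha w]
  have h3 : (inner ℂ w y : ℂ) = (starRingEnd ℂ) (inner ℂ y w) := (inner_conj_symm w y).symm
  simp only [map_sub, map_div₀, map_inv₀, map_pow, Complex.conj_ofReal, h3]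
  field_simp
  ring

theorem hb_nonneg {y : F} (hy : ‖y‖ < 1) (w : F) : 0 ≤ hb y w := by
  have h3 : 0 < 1 - ‖y‖ ^ 2 := by nlinarith [norm_nonneg y]
  unfold hb
  positivity

theorem hb_pos {y w : F} (hy : ‖y‖ < 1) (hw : w ≠ 0) : 0 < hb y w := by
  have h3 : 0 < 1 - ‖y‖ ^ 2 := by nlinarith [norm_nonneg y]
  have h4 : 0 < ‖w‖ := norm_pos_iff.2 hw
  unfold hb
  positivity

private theorem Aut_diff_inner (a : F) : Differentiable ℂ (fun y : F => (inner ℂ a y : ℂ)) := by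
  exact (innerSL ℂ a).differentiable

theorem aut_diff {a : F} (ha : ‖a‖ < 1) : DifferentiableOn ℂ (aut a) (ball 0 1) := by
  have h1 : DifferentiableOn ℂ (fun y : F => (inner ℂ a y : ℂ)) (ball 0 1) :=
    (Aut_diff_inner a).differentiableOn
  have h2 : DifferentiableOn ℂ (fun y : F => (del a y)⁻¹) (ball 0 1) := by
    apply DifferentiableOn.inv
    · unfold del
      exact (differentiableOn_const _).sub h1
    · intro y hy
      exact del_ne ha (by simpa using hy)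
  have h3 : DifferentiableOn ℂ (fun y : F => AutN a y 1) (ball 0 1) := by
    unfold AutN
    apply DifferentiableOn.add
    · exact (differentiableOn_id).const_smul (sa a : ℂ)
    · apply DifferentiableOn.smul_const
      simp only [div_eq_mul_inv]
      exact (h1.mul_const _).sub (differentiableOn_const _)
  have h4 : aut a = fun y => (del a y)⁻¹ • AutN a y 1 := by
    funext y
    exact Aut_aut a y
  rw [h4]
  exact h2.smul h3

theorem aut'_diff {a : F} (ha : ‖a‖ < 1) :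
    DifferentiableOn ℂ (fun q : F × F => aut' a q.1 q.2) (ball 0 1 ×ˢ univ) := by
  have h1 : DifferentiableOn ℂ (fun q : F × F => (inner ℂ a q.1 : ℂ)) (ball 0 1 ×ˢ univ) :=
    ((Aut_diff_inner a).comp differentiable_fst).differentiableOn
  have h1' : DifferentiableOn ℂ (fun q : F × F => (inner ℂ a q.2 : ℂ)) (ball 0 1 ×ˢ univ) :=
    ((Aut_diff_inner a).comp differentiable_snd).differentiableOn
  have h0 : DifferentiableOn ℂ (fun q : F × F => del a q.1) (ball 0 1 ×ˢ univ) := by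
    unfold del
    exact (differentiableOn_const _).sub h1
  have hne : ∀ q ∈ (ball (0 : F) 1 ×ˢ (univ : Set F)), del a q.1 ≠ 0 := by
    intro q hq
    exact del_ne ha (by simpa using hq.1)
  have h2 : DifferentiableOn ℂ (fun q : F × F => (del a q.1)⁻¹) (ball 0 1 ×ˢ univ) :=
    h0.inv hne
  have h3 : DifferentiableOn ℂ (fun q : F × F => AutN a q.1 1) (ball 0 1 ×ˢ univ) := by
    unfold AutN
    apply DifferentiableOn.add
    · exact (differentiable_fst.differentiableOn).const_smul (sa a : ℂ)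
    · apply DifferentiableOn.smul_const
      simp only [div_eq_mul_inv]
      exact (h1.mul_const _).sub (differentiableOn_const _)
  have h3' : DifferentiableOn ℂ (fun q : F × F => AutN a q.2 0) (ball 0 1 ×ˢ univ) := by
    unfold AutN
    apply DifferentiableOn.add
    · exact (differentiable_snd.differentiableOn).const_smul (sa a : ℂ)
    · apply DifferentiableOn.smul_const
      simp only [div_eq_mul_inv]
      exact (h1'.mul_const _).sub (differentiableOn_const _)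
  have h4 : (fun q : F × F => aut' a q.1 q.2) = fun q : F × F => (del a q.1)⁻¹ • AutN a q.2 0 +
      (inner ℂ a q.2 / (del a q.1) ^ 2) • AutN a q.1 1 := by
    funext q
    exact Aut_aut' a q.1 q.2
  rw [h4]
  apply DifferentiableOn.add
  · exact h2.smul h3'
  · apply DifferentiableOn.smul _ h3
    simp only [div_eq_mul_inv]
    exact h1'.mul ((h0.pow 2).inv (fun q hq => pow_ne_zero 2 (hne q hq)))

theorem aut'_smul (a y w : F) (c : ℂ) : aut' a y (c • w) = c • aut' a y w := by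
  unfold aut'
  rw [inner_smul_right]
  module

theorem aut'_ne {a y w : F} (ha : ‖a‖ < 1) (hy : ‖y‖ < 1) (hw : w ≠ 0) : aut' a y w ≠ 0 := by
  intro h
  have h1 := aut_hb ha hy w
  have h2 := hb_pos hy hw
  rw [h] at h1
  have h3 : hb (aut a y) (0 : F) = 0 := by
    unfold hb
    simp
  rw [h3] at h1
  linarith

end Pool.Agent.Nef6.KC
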