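import Pool.Agent.H.MP_6a1d6a_ag.KC.Aut
import Pool.Agent.H.MP_6a1d6a_ag.CC.Peak

/-!
MP_6a1d6a_ag/KC, module Bal: the complex hyperbolic metric of the ball has a plurisubharmonic logarithm.

* `hb_loc`: `PeakAt` at `(0, w₀)`: `CC.peak3` with `P = 0`, `R = 0` (in `ℂ`), `Q (y, w) = √c w`: `c ‖w‖² ≤ c hb y w`, equality at `y = 0`.
  At `(a, w₀)`: `PeakAt.pull` with `L = aut a`, `L' = fun q => aut' a q.1 q.2` (`aut_self`, `aut_hb`, `aut'_ne`).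
  `cont`: `1 - ‖y‖² ≠ 0` on the ball.
* `hyp_eq_hb`: `E n` is mapped linearly to `WithLp 2 (ℂ × EuclideanSpace ℂ (Fin n))` (`WithLp.prod_norm_sq_eq_of_L2`,
  `WithLp.prod_inner_apply`): `hyp x v = 4 hb (toLp x) (toLp v)`; `hyp_loc` by `LocNorm.pull`
  (`WithLp.prodContinuousLinearEquiv` or the like is continuous linear).
* `hyp_dec`: with `r = 1 - ‖y‖²`, `R = r - |u|²`, `c = ⟨v_y, y⟩`:
  `(|v_u|² + ‖v_y‖²)/R + |conj u v_u + c|²/R² = r |v_u + u c/r|²/R² + (r/R)(‖v_y‖²/r + |c|²/r²)` (expand).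
* `hyp_rot`: rotation of the first coordinate.
-/

set_option autoImplicit false

open Set Filter Topology Metric
open scoped ContDiff Manifold

namespace Pool.Agent.Nef6.KC

section

variable {F : Type} [NormedAddCommGroup F] [InnerProductSpace ℂ F]

private theorem Bal_one {y : F} (hy : ‖y‖ < 1) : 0 < 1 - ‖y‖ ^ 2 := by
  nlinarith [norm_nonneg y]

private theorem Bal_hb_smul (y w : F) (c : ℂ) : hb y (c • w) = ‖c‖ ^ 2 * hb y w := by
  unfold hb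
  rw [norm_smul, inner_smul_right, norm_mul]
  ring

private theorem Bal_hb_zero (w : F) : hb (0 : F) w = ‖w‖ ^ 2 := by
  unfold hb
  rw [inner_zero_left, norm_zero, norm_zero]
  norm_num

private theorem Bal_hb_ge {y : F} (hy : ‖y‖ < 1) (w : F) : ‖w‖ ^ 2 ≤ hb y w := by
  have h1 := Bal_one hy
  have h2 : 1 - ‖y‖ ^ 2 ≤ 1 := by linarith [sq_nonneg ‖y‖]
  unfold hb
  have h3 : ‖w‖ ^ 2 ≤ ‖w‖ ^ 2 / (1 - ‖y‖ ^ 2) := by
    rw [le_div_iff₀ h1]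
    nlinarith [sq_nonneg ‖w‖]
  have h4 : 0 ≤ ‖(inner ℂ y w : ℂ)‖ ^ 2 / (1 - ‖y‖ ^ 2) ^ 2 := by positivity
  linarith

private theorem Bal_hb_cont : ContinuousOn (fun q : F × F => hb q.1 q.2)
    (ball 0 1 ×ˢ (univ : Set F)) := by
  have hc : Continuous fun q : F × F => 1 - ‖q.1‖ ^ 2 := by fun_prop
  have hne : ∀ q ∈ ball (0 : F) 1 ×ˢ (univ : Set F), 1 - ‖q.1‖ ^ 2 ≠ 0 := fun q hq =>
    (Bal_one (mem_ball_zero_iff.1 hq.1)).ne'
  unfold hb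
  refine ContinuousOn.add (ContinuousOn.div ?_ hc.continuousOn hne)
    (ContinuousOn.div ?_ (hc.pow 2).continuousOn fun q hq => pow_ne_zero 2 (hne q hq))
  · fun_prop
  · refine Continuous.continuousOn ?_
    have h1 : Continuous fun q : F × F => (inner ℂ q.1 q.2 : ℂ) :=
      Continuous.inner (by fun_prop) (by fun_prop)
    fun_prop

private theorem Bal_peak {c : ℝ} (hc : 0 < c) {v₀ : F} (hv₀ : v₀ ≠ 0) :
    PeakAt (fun y w : F => √(c * hb y w)) (ball 0 1) 0 v₀ := by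
  have h0 : (0 : F) ∈ ball (0 : F) 1 := mem_ball_self one_pos
  have hp : ∀ y : F, ‖y‖ < 1 → ∀ w : F, 0 ≤ c * hb y w := fun y hy w =>
    mul_nonneg hc.le (hb_nonneg hy w)
  have hn : ∀ w : F, ‖((√c : ℝ) : ℂ) • w‖ ^ 2 = c * ‖w‖ ^ 2 := fun w => by
    rw [norm_smul, mul_pow, Complex.norm_real, Real.norm_of_nonneg (Real.sqrt_nonneg c),
      Real.sq_sqrt hc.le]
  refine CC.peak3 (F := F) (G := ℂ) (fun _ => 0) (fun q => ((√c : ℝ) : ℂ) • q.2) (fun _ => 0)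
    (differentiableOn_const _) (by fun_prop) (differentiableOn_const _)
    (Real.sqrt_pos.2 (mul_pos hc (hb_pos (mem_ball_zero_iff.1 h0) hv₀)))
    (fun x _ v => Real.sqrt_nonneg _) ?_ ?_
  · intro x hx v
    have hx' := mem_ball_zero_iff.1 hx
    dsimp only
    rw [Real.sq_sqrt (hp x hx' v), hn, norm_zero]
    nlinarith [Bal_hb_ge hx' v]
  · dsimp only
    rw [Real.sq_sqrt (hp 0 (mem_ball_zero_iff.1 h0) v₀), hn, norm_zero, Bal_hb_zero]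
    ring

end

theorem hb_loc {F : Type} [NormedAddCommGroup F] [InnerProductSpace ℂ F] {c : ℝ} (hc : 0 < c) :
    LocNorm (fun y w : F => √(c * hb y w)) (ball 0 1) := by
  refine ⟨isOpen_ball, ?_, ?_, ?_, ?_⟩
  · exact ContinuousOn.sqrt (continuousOn_const.mul Bal_hb_cont)
  · intro x hx v hv
    exact Real.sqrt_pos.2 (mul_pos hc (hb_pos (mem_ball_zero_iff.1 hx) hv))
  · intro x _ a v
    rw [Bal_hb_smul, mul_left_comm, Real.sqrt_mul (sq_nonneg _), Real.sqrt_sq (norm_nonneg _)]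
  · intro a ha v hv
    have ha' := mem_ball_zero_iff.1 ha
    refine CC.PeakAt.pull (N := fun y w : F => √(c * hb y w)) (U := ball 0 1) (L := aut a)
      (L' := fun q => aut' a q.1 q.2) ?_ (aut_diff ha') (aut'_diff ha') ?_ ha ?_
    · rw [aut_self ha']
      exact Bal_peak hc (aut'_ne ha' ha' hv)
    · intro x hx
      exact mem_ball_zero_iff.2 (aut_lt ha' (mem_ball_zero_iff.1 hx))
    · intro x hx w
      dsimp only
      rw [aut_hb ha' (mem_ball_zero_iff.1 hx)]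

variable {n : ℕ}

theorem bl_open : IsOpen (Bl n) := by
  have h : Continuous fun x : E n => ‖x.1‖ ^ 2 + ‖x.2‖ ^ 2 := by fun_prop
  exact isOpen_lt h continuous_const

theorem hyp_nonneg {x : E n} (hx : x ∈ Bl n) (v : E n) : 0 ≤ hyp x v := by
  have h : ‖x.1‖ ^ 2 + ‖x.2‖ ^ 2 < 1 := hx
  have h1 : 0 < 1 - ‖x.1‖ ^ 2 - ‖x.2‖ ^ 2 := by linarith
  unfold hyp
  positivity

/-- `LocNorm.pull` for an injective linear map between different spaces -/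
private theorem Bal_pull {V V' : Type} [NormedAddCommGroup V] [NormedSpace ℂ V]
    [NormedAddCommGroup V'] [NormedSpace ℂ V'] {N : V' → V' → ℝ} {N' : V → V → ℝ} {U : Set V'}
    {U' : Set V} (L : V →L[ℂ] V') (hL : Function.Injective L) (h : LocNorm N U)
    (hU' : IsOpen U') (hm : MapsTo L U' U) (hN : ∀ x ∈ U', ∀ v, N' x v = N (L x) (L v)) :
    LocNorm N' U' := by
  have hne : ∀ v, v ≠ 0 → L v ≠ 0 := fun v hv h0 => hv (hL (by rw [h0, map_zero]))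
  refine ⟨hU', ?_, ?_, ?_, ?_⟩
  · have h1 : ContinuousOn (fun q : V × V => (L q.1, L q.2)) (U' ×ˢ univ) := by fun_prop
    have h2 : MapsTo (fun q : V × V => (L q.1, L q.2)) (U' ×ˢ univ) (U ×ˢ univ) :=
      fun q hq => ⟨hm hq.1, mem_univ _⟩
    refine (h.cont.comp h1 h2).congr fun q hq => ?_
    exact hN q.1 hq.1 q.2
  · intro x hx v hv
    rw [hN x hx v]
    exact h.pos _ (hm hx) _ (hne v hv)
  · intro x hx c v
    rw [hN x hx v, hN x hx (c • v), map_smul]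
    exact h.hom _ (hm hx) _ _
  · intro x hx v hv
    obtain ⟨θ, h1, h2, h3⟩ := h.peak _ (hm hx) _ (hne v hv)
    refine ⟨fun q => θ (L q.1, L q.2), ?_, ?_, ?_⟩
    · refine h1.comp (by fun_prop) ?_
      intro q hq
      exact ⟨hm hq.1, mem_univ _⟩
    · intro y hy w
      rw [hN y hy w]
      exact h2 _ (hm hy) _
    · rw [hN x hx v]
      exact h3

/-- the identification with the euclidean space -/
private noncomputable def Bal_L (n : ℕ) : E n →L[ℂ] WithLp 2 (ℂ × EuclideanSpace ℂ (Fin n)) :=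
  (WithLp.prodContinuousLinearEquiv 2 ℂ ℂ (EuclideanSpace ℂ (Fin n))).symm

private theorem Bal_L_norm (x : E n) : ‖Bal_L n x‖ ^ 2 = ‖x.1‖ ^ 2 + ‖x.2‖ ^ 2 :=
  WithLp.prod_norm_sq_eq_of_L2 _

private theorem Bal_L_inner (x v : E n) :
    (inner ℂ (Bal_L n x) (Bal_L n v) : ℂ) = (starRingEnd ℂ) x.1 * v.1 + inner ℂ x.2 v.2 := by
  have h : (inner ℂ (Bal_L n x) (Bal_L n v) : ℂ) = inner ℂ x.1 v.1 + inner ℂ x.2 v.2 :=
    WithLp.prod_inner_apply _ _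
  rw [h, RCLike.inner_apply']

private theorem Bal_hyp (x v : E n) : hyp x v = 4 * hb (Bal_L n x) (Bal_L n v) := by
  unfold hyp hb
  rw [Bal_L_norm, Bal_L_norm, Bal_L_inner, sub_add_eq_sub_sub]

theorem hyp_loc : LocNorm (fun x v : E n => √(hyp x v)) (Bl n) := by
  refine Bal_pull (Bal_L n)
    (WithLp.prodContinuousLinearEquiv 2 ℂ ℂ (EuclideanSpace ℂ (Fin n))).symm.injective
    (hb_loc (F := WithLp 2 (ℂ × EuclideanSpace ℂ (Fin n))) (c := 4) (by norm_num)) bl_open ?_ ?_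
  · intro x hx
    have h : ‖x.1‖ ^ 2 + ‖x.2‖ ^ 2 < 1 := hx
    rw [← Bal_L_norm] at h
    rw [mem_ball_zero_iff]
    by_contra h1
    nlinarith [not_lt.1 h1]
  · intro x _ v
    rw [Bal_hyp]

private theorem Bal_dec (u a c : ℂ) (r : ℝ) :
    (r - ‖u‖ ^ 2) * ‖a‖ ^ 2 * r + r * ‖(starRingEnd ℂ) u * a + c‖ ^ 2 =
      ‖(r : ℂ) * a + u * c‖ ^ 2 + (r - ‖u‖ ^ 2) * ‖c‖ ^ 2 := by
  simp only [Complex.sq_norm, Complex.normSq_apply, Complex.mul_re, Complex.mul_im, Complex.add_re,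
    Complex.add_im, Complex.conj_re, Complex.conj_im, Complex.ofReal_re, Complex.ofReal_im]
  ring

theorem hyp_dec {x : E n} (hx : x ∈ Bl n) (v : E n) :
    hyp x v = 4 * ((1 - ‖x.2‖ ^ 2) *
      ‖v.1 + x.1 * inner ℂ x.2 v.2 / ((1 - ‖x.2‖ ^ 2 : ℝ) : ℂ)‖ ^ 2 /
        (1 - ‖x.1‖ ^ 2 - ‖x.2‖ ^ 2) ^ 2 +
      (1 - ‖x.2‖ ^ 2) / (1 - ‖x.1‖ ^ 2 - ‖x.2‖ ^ 2) * hb x.2 v.2) := by
  have h : ‖x.1‖ ^ 2 + ‖x.2‖ ^ 2 < 1 := hx
  obtain ⟨r, hr⟩ : ∃ r, r = 1 - ‖x.2‖ ^ 2 := ⟨_, rfl⟩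
  have hr0 : 0 < r := by rw [hr]; nlinarith [sq_nonneg ‖x.1‖]
  have hR0 : 0 < r - ‖x.1‖ ^ 2 := by rw [hr]; linarith
  have hR : 1 - ‖x.1‖ ^ 2 - ‖x.2‖ ^ 2 = r - ‖x.1‖ ^ 2 := by rw [hr]; ring
  have h1 := Bal_dec x.1 v.1 (inner ℂ x.2 v.2) r
  have hrc : (r : ℂ) ≠ 0 := by exact_mod_cast hr0.ne'
  have h2 : ‖v.1 + x.1 * inner ℂ x.2 v.2 / (r : ℂ)‖ ^ 2 =
      ‖(r : ℂ) * v.1 + x.1 * inner ℂ x.2 v.2‖ ^ 2 / r ^ 2 := by
    have h3 : v.1 + x.1 * inner ℂ x.2 v.2 / (r : ℂ) =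
        ((r : ℂ) * v.1 + x.1 * inner ℂ x.2 v.2) / (r : ℂ) := by
      field_simp
    rw [h3, norm_div, div_pow, Complex.norm_real, Real.norm_of_nonneg hr0.le]
  unfold hyp hb
  rw [← hr, hR, h2]
  have h4 : ‖(r : ℂ) * v.1 + x.1 * inner ℂ x.2 v.2‖ ^ 2 =
      (r - ‖x.1‖ ^ 2) * ‖v.1‖ ^ 2 * r +
        r * ‖(starRingEnd ℂ) x.1 * v.1 + inner ℂ x.2 v.2‖ ^ 2 -
        (r - ‖x.1‖ ^ 2) * ‖(inner ℂ x.2 v.2 : ℂ)‖ ^ 2 := by linarith
  rw [h4]
  field_simp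
  ring

theorem hyp_rot {θ : ℂ} (hθ : ‖θ‖ = 1) (x v : E n) :
    hyp (θ * x.1, x.2) (θ * v.1, v.2) = hyp x v := by
  have h1 : (starRingEnd ℂ) (θ * x.1) * (θ * v.1) = (starRingEnd ℂ) x.1 * v.1 := by
    have h2 : (starRingEnd ℂ) θ * θ = 1 := by
      rw [Complex.conj_mul', hθ]
      norm_num
    rw [map_mul]
    linear_combination ((starRingEnd ℂ) x.1 * v.1) * h2
  unfold hyp
  dsimp only
  rw [h1, norm_mul, norm_mul, hθ, one_mul, one_mul]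

end Pool.Agent.Nef6.KC
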