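import Pool.Agent.H.MP_6a1d6a_ag.Defs

/-!
MP_6a1d6a_ag, cone manifolds: definitions.

Complex hyperbolic space of dimension `n + 1` in the ball model, the complex hyperbolic metric with a cone singularity
along a divisor, and complex hyperbolic cone manifolds.
-/

set_option autoImplicit false

open Set Filter Topology Metric
open scoped ContDiff Manifold

namespace Pool.Agent.Nef6.KC

/-- The space `ℂ × ℂⁿ`; its points are written `(u, y)` or `(z, y)`. -/
abbrev E (n : ℕ) : Type := ℂ × EuclideanSpace ℂ (Fin n)

/-- The unit ball `|u|² + |y|² < 1` of `ℂ^(n+1)`: the complex hyperbolic space of dimension `n + 1`. -/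
def Bl (n : ℕ) : Set (E n) := {x | ‖x.1‖ ^ 2 + ‖x.2‖ ^ 2 < 1}

/-- The complex hyperbolic metric (Bergman metric) of the ball, normalised to holomorphic sectional curvature `-1`: the
square of the length of the tangent vector `v` at the point `x`. -/
noncomputable def hyp {n : ℕ} (x v : E n) : ℝ :=
  4 * ((‖v.1‖ ^ 2 + ‖v.2‖ ^ 2) / (1 - ‖x.1‖ ^ 2 - ‖x.2‖ ^ 2) +
    ‖(starRingEnd ℂ) x.1 * v.1 + inner ℂ x.2 v.2‖ ^ 2 / (1 - ‖x.1‖ ^ 2 - ‖x.2‖ ^ 2) ^ 2)

/-- The complex hyperbolic metric with cone angle `2π/d` along the divisor `z = 0`: the pull-back of the metric `hyp` by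
the (multivalued) map `(z, y) ↦ (z^(1/d), y)`. As `hyp` does not change under the rotations `u ↦ e^{iθ} u`, the value
`z^(1/d)` with its derivative `z^(1/d) v / (d z)` may be replaced by `|z|^(1/d)` and `|z|^(1/d) v / (d z)`. -/
noncomputable def cone {n : ℕ} (d : ℝ) (x v : E n) : ℝ :=
  hyp (((‖x.1‖ ^ (1 / d) : ℝ) : ℂ), x.2) (((‖x.1‖ ^ (1 / d) : ℝ) : ℂ) * (v.1 / (d * x.1)), v.2)

/-- The function `|z|^(2/d) / (1 - |y|²)`. Its value at the point `(z, y)` is `tanh² (r/2)`, where `r` is the distance
from the divisor `z = 0` in the cone metric. -/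
noncomputable def rad {n : ℕ} (d : ℝ) (x : E n) : ℝ := ‖x.1‖ ^ (2 / d) / (1 - ‖x.2‖ ^ 2)

/-- The tube of radius `R` about the divisor `z = 0`, `|y| < 1`. -/
def Tube (n : ℕ) (d R : ℝ) : Set (E n) := {x | ‖x.2‖ < 1 ∧ rad d x < Real.tanh (R / 2) ^ 2}

/-- The type of the charts (open partial homeomorphisms to `ℂ × ℂⁿ`) of `Y`. -/
abbrev Chart (n : ℕ) (Y : Type) [TopologicalSpace Y] : Type := OpenPartialHomeomorph Y (E n)

section charts

variable {n : ℕ} {Y : Type} [TopologicalSpace Y]

/-- `φ` is a holomorphic chart of the complex manifold `Y` with values in `M`. -/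
def HolChart [ChartedSpace (E n) Y] (M : Set (E n)) (φ : Chart n Y) : Prop :=
  φ ∈ Charts (E n) Y ∧ φ.target ⊆ M

/-- The coordinate change from the chart `φ` to the chart `φ'` has the property `P`: at every common point the
relation `P x x' D` is true for the coordinates `x` and `x'` of the point in the two charts and the derivative `D` of
the coordinate change at `x`. -/
def Change (φ φ' : Chart n Y) (P : E n → E n → (E n → E n) → Prop) : Prop :=
  ∀ y ∈ φ.source, y ∈ φ'.source → P (φ y) (φ' y) (fderiv ℂ (φ' ∘ φ.symm) (φ y))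

/-- The set of the points which are in the domain of a chart of `T` and whose coordinates in it are in `M`. -/
def Part (T : Set (Chart n Y)) (M : Set (E n)) : Set Y := {y | ∃ φ ∈ T, y ∈ φ.source ∧ φ y ∈ M}

/-- `reg` is a set of regular charts of a complex hyperbolic cone manifold: holomorphic charts with values in the ball,
the coordinate changes are isometries. -/
structure RegCharts [ChartedSpace (E n) Y] (reg : Set (Chart n Y)) : Prop where
  chart : ∀ φ ∈ reg, HolChart (Bl n) φ
  isom : ∀ φ ∈ reg, ∀ φ' ∈ reg, Change φ φ' fun x x' D => ∀ v, hyp x' (D v) = hyp x v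

/-- `tub` is a set of charts of a tubular neighbourhood of radius `R` of a divisor with the cone angle `2π/d` (the
divisor is given by `z = 0` in these charts), in a complex hyperbolic cone manifold with the set `reg` of regular
charts. -/
structure TubeCharts [ChartedSpace (E n) Y] (reg tub : Set (Chart n Y)) (d R : ℝ) : Prop where
  d_pos : 0 < d
  R_pos : 0 < R
  chart : ∀ φ ∈ tub, HolChart (Tube n d R) φ
  /-- the coordinate changes preserve the distance from the divisor and the cone metric -/
  rad_eq : ∀ φ ∈ tub, ∀ φ' ∈ tub, Change φ φ' fun x x' _ => rad d x' = rad d x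
  isom : ∀ φ ∈ tub, ∀ φ' ∈ tub, Change φ φ' fun x x' D =>
    x.1 ≠ 0 → ∀ v, cone d x' (D v) = cone d x v
  /-- the regular charts do not meet the divisor, and the coordinate changes from them are isometries -/
  reg_isom : ∀ φ ∈ reg, ∀ φ' ∈ tub, Change φ φ' fun x x' D =>
    x'.1 ≠ 0 ∧ ∀ v, cone d x' (D v) = hyp x v
  /-- the closed tubes of smaller radius are closed subsets of `Y` -/
  closed : ∀ c < Real.tanh (R / 2) ^ 2, IsClosed (Part tub {x | rad d x ≤ c})

end charts

/-- A complex hyperbolic cone manifold: a complex manifold `Y` with a complex hyperbolic metric off finitely many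
disjoint divisors, with cone angle `2π / d i` along the divisor with index `i`, which has an embedded tubular
neighbourhood of radius `R i > 0`, where `cosh (R i) > d i` (no condition on `R i` if `d i ≤ 1`); these neighbourhoods
are disjoint. The metric is given by charts. -/
structure ConeManifold (n : ℕ) (Y : Type) [TopologicalSpace Y] [ChartedSpace (E n) Y] where
  /-- the regular charts -/
  reg : Set (Chart n Y)
  reg_charts : RegCharts reg
  /-- the divisors, their cone angles `2π / d i` and the radii `R i` of the tubes -/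
  ι : Type
  fin : Finite ι
  d : ι → ℝ
  R : ι → ℝ
  deep : ∀ i, d i < Real.cosh (R i)
  /-- the charts of the tubular neighbourhoods -/
  tub : ι → Set (Chart n Y)
  tub_charts : ∀ i, TubeCharts reg (tub i) (d i) (R i)
  /-- the tubular neighbourhoods are disjoint -/
  disj : ∀ i j, i ≠ j → Disjoint (Part (tub i) univ) (Part (tub j) univ)
  /-- the charts cover `Y` -/
  cover : ∀ y, y ∈ Part reg univ ∨ ∃ i, y ∈ Part (tub i) univ

end Pool.Agent.Nef6.KC
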