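import Pool.Agent.H.MP_6a1d6a_ag.KC.Cyl2

/-!
MP_6a1d6a_ag/KC, module Pres: maps which preserve the cone metric and the distance from the divisor preserve `Nz`. Follow
`CC/Pres.lean`.

`e (x) = ((1 - ‖y‖²)^d)⁻¹`, `m (x) = |z|² e = rad^d` (`rad_rpow`). The derivative of `m` in the direction `v` is
`2 e Re (conj z Dz d x v)`. As `m ∘ t = m` near `x` and the derivative of `t` is complex linear, `e' Re (conj z' D') = e Re (conj z D)`
for `v` and `i v` (`D' = Dz d (t x) (Dt v)` etc.), so `e'² |z'|² |D'|² = e² |z|² |D|²`, and with `e' |z'|² = e |z|²`: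
`e' |D'|² = e |D|²` and `|D'|²/|z'|² = |D|²/|z|²`. From `hz = cone` (`hz_eq`) at both points and `1 - rad > 0`: `hb` is preserved.
`h1 = A (e |D|² + d m hb) + B hb` and `Nz` depend only on these.
-/

set_option autoImplicit false

open Set Filter Topology Metric
open scoped ContDiff Manifold

namespace Pool.Agent.Nef6.KC

variable {n : ℕ}

/-- `e = (1 - ‖y‖²)^(-d)` -/
private noncomputable def PresE (d : ℝ) (x : E n) : ℝ := ((1 - ‖x.2‖ ^ 2) ^ d)⁻¹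

private theorem Pres_pos {y : EuclideanSpace ℂ (Fin n)} (h : ‖y‖ < 1) : 0 < 1 - ‖y‖ ^ 2 := by
  have h1 := norm_nonneg y
  nlinarith

private theorem PresE_pos (d : ℝ) {x : E n} (h : ‖x.2‖ < 1) : 0 < PresE d x := by
  unfold PresE
  have := Pres_pos h
  positivity

private theorem Pres_inner (w u : EuclideanSpace ℂ (Fin n)) :
    inner ℝ w u = (inner ℂ w u : ℂ).re := by
  rw [PiLp.inner_apply, PiLp.inner_apply, Complex.re_sum]
  refine Finset.sum_congr rfl fun i _ => ?_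
  rw [Complex.inner, RCLike.inner_apply, mul_comm]

/-- The derivative of `|z|² e` along a curve. -/
private theorem Pres_curve (d : ℝ) {c : ℝ → E n} {c' : E n} {s : ℝ} (hc : HasDerivAt c c' s)
    (hs : ‖(c s).2‖ < 1) :
    HasDerivAt (fun s => ‖(c s).1‖ ^ 2 * (1 - ‖(c s).2‖ ^ 2) ^ (-d))
      (2 * (PresE d (c s) * ((starRingEnd ℂ) (c s).1 * Dz d (c s) c').re)) s := by
  have h0 := Pres_pos hs
  have h1 : HasDerivAt (fun s => (c s).1) c'.1 s :=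
    (ContinuousLinearMap.fst ℝ ℂ (EuclideanSpace ℂ (Fin n))).hasFDerivAt.comp_hasDerivAt s hc
  have h2 : HasDerivAt (fun s => (c s).2) c'.2 s :=
    (ContinuousLinearMap.snd ℝ ℂ (EuclideanSpace ℂ (Fin n))).hasFDerivAt.comp_hasDerivAt s hc
  have h3 := h1.norm_sq
  have h4 := h2.norm_sq
  have h5 := (h4.const_sub 1).rpow_const (p := -d) (Or.inl h0.ne')
  have h6 := h3.mul h5
  refine HasDerivAt.congr_deriv h6 ?_
  rw [Pres_inner, Complex.inner]
  have h7 : (starRingEnd ℂ) (c s).1 * Dz d (c s) c' =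
      (starRingEnd ℂ) (c s).1 * c'.1 +
        ((d * ‖(c s).1‖ ^ 2 * (1 - ‖(c s).2‖ ^ 2)⁻¹ : ℝ) : ℂ) * inner ℂ (c s).2 c'.2 := by
    unfold Dz
    have h8 : (starRingEnd ℂ) (c s).1 * (c s).1 = ((‖(c s).1‖ ^ 2 : ℝ) : ℂ) := by
      rw [mul_comm, Complex.mul_conj, Complex.normSq_eq_norm_sq]
    push_cast at h8 ⊢
    rw [div_eq_mul_inv]
    linear_combination (d * inner ℂ (c s).2 c'.2 * (1 - (‖(c s).2‖ : ℂ) ^ 2)⁻¹) * h8
  rw [h7, Complex.add_re, Complex.re_ofReal_mul, mul_comm c'.1]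
  have h9 : (1 - ‖(c s).2‖ ^ 2) ^ (-d - 1) = PresE d (c s) * (1 - ‖(c s).2‖ ^ 2)⁻¹ := by
    rw [Real.rpow_sub_one h0.ne', Real.rpow_neg h0.le, div_eq_mul_inv]
    rfl
  have h10 : (1 - ‖(c s).2‖ ^ 2) ^ (-d) = PresE d (c s) := Real.rpow_neg h0.le d
  rw [h9, h10]
  ring

private theorem Pres_smul (d : ℝ) (x v : E n) (a : ℂ) : Dz d x (a • v) = a * Dz d x v := by
  unfold Dz
  rw [Prod.smul_fst, Prod.smul_snd, inner_smul_right, smul_eq_mul]
  ring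

private theorem Pres_m {d : ℝ} (hd : 0 < d) {x : E n} (h : ‖x.2‖ < 1) :
    ‖x.1‖ ^ 2 * (1 - ‖x.2‖ ^ 2) ^ (-d) = rad d x ^ d := by
  rw [rad_rpow hd h, Real.rpow_neg (Pres_pos h).le, div_eq_mul_inv]

private theorem Pres_re {d : ℝ} (hd : 0 < d) {t : E n → E n} {x : E n}
    (ht : DifferentiableAt ℂ t x)
    (hn : ∀ᶠ x' in 𝓝 x, ‖(t x').2‖ < 1 ∧ rad d (t x') = rad d x') (h2 : ‖x.2‖ < 1) (v : E n) :
    PresE d (t x) * ((starRingEnd ℂ) (t x).1 * Dz d (t x) (fderiv ℂ t x v)).re =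
      PresE d x * ((starRingEnd ℂ) x.1 * Dz d x v).re := by
  have hc : HasDerivAt (fun s : ℝ => x + s • v) v 0 := by
    have h1 := (hasDerivAt_id (0 : ℝ)).smul_const v
    have h2 := h1.const_add x
    simpa using h2
  have hx0 : x + (0 : ℝ) • v = x := by simp
  have ht' : HasFDerivAt t ((fderiv ℂ t x).restrictScalars ℝ) (x + (0 : ℝ) • v) := by
    rw [hx0]
    exact ht.hasFDerivAt.restrictScalars ℝ
  have hc1 : HasDerivAt (fun s : ℝ => t (x + s • v)) (fderiv ℂ t x v) 0 := by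
    have h1 := ht'.comp_hasDerivAt (0 : ℝ) hc
    exact h1
  have htx : ‖(t x).2‖ < 1 := hn.self_of_nhds.1
  have h3 := Pres_curve d hc (by rw [hx0]; exact h2)
  have h4 := Pres_curve d hc1 (by simp only [hx0]; exact htx)
  have hev : ∀ᶠ x' : E n in 𝓝 x, ‖x'.2‖ < 1 :=
    (continuous_snd.norm.tendsto x).eventually (gt_mem_nhds h2)
  have h5 : (fun s : ℝ => ‖(x + s • v).1‖ ^ 2 * (1 - ‖(x + s • v).2‖ ^ 2) ^ (-d)) =ᶠ[𝓝 0]
      fun s : ℝ => ‖(t (x + s • v)).1‖ ^ 2 * (1 - ‖(t (x + s • v)).2‖ ^ 2) ^ (-d) := by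
    have h6 : Tendsto (fun s : ℝ => x + s • v) (𝓝 0) (𝓝 x) := by
      have := hc.continuousAt.tendsto
      rwa [hx0] at this
    refine (h6.eventually (hn.and hev)).mono fun s hs => ?_
    show ‖(x + s • v).1‖ ^ 2 * (1 - ‖(x + s • v).2‖ ^ 2) ^ (-d) =
      ‖(t (x + s • v)).1‖ ^ 2 * (1 - ‖(t (x + s • v)).2‖ ^ 2) ^ (-d)
    rw [Pres_m hd hs.2, Pres_m hd hs.1.1, hs.1.2]
  have h6 := h3.unique (h4.congr_of_eventuallyEq h5)
  simp only [hx0] at h6
  linarith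

theorem Nz_pres {d A B σ : ℝ} (hd0 : 0 < d) {t : E n → E n} {x : E n} (ht : DifferentiableAt ℂ t x)
    (hn : ∀ᶠ x' in 𝓝 x, ‖(t x').2‖ < 1 ∧ rad d (t x') = rad d x') (h0 : x.1 ≠ 0)
    (h2 : ‖x.2‖ < 1) (h1 : rad d x < 1)
    (hh : ∀ v, cone d (t x) (fderiv ℂ t x v) = cone d x v) (v : E n) :
    Nz d A B σ (t x) (fderiv ℂ t x v) = Nz d A B σ x v := by
  obtain ⟨htx, hq⟩ : ‖(t x).2‖ < 1 ∧ rad d (t x) = rad d x := hn.self_of_nhds
  have hrp : 0 < rad d x := rad_pos d h2 h0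
  have hz0 : (t x).1 ≠ 0 := by
    intro h
    rw [rad_zero hd0 h] at hq
    exact hrp.ne hq
  have hx : 0 < ‖x.1‖ ^ 2 := by
    have := norm_pos_iff.2 h0
    positivity
  have hz' : 0 < ‖(t x).1‖ ^ 2 := by
    have := norm_pos_iff.2 hz0
    positivity
  -- the two real parts
  have h3 := Pres_re hd0 ht hn h2 v
  have h4 := Pres_re hd0 ht hn h2 (Complex.I • v)
  rw [map_smul, Pres_smul, Pres_smul] at h4
  have h5 : ∀ z D : ℂ, ((starRingEnd ℂ) z * (Complex.I * D)).re = -((starRingEnd ℂ) z * D).im := by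
    intro z D
    have h5 : (starRingEnd ℂ) z * (Complex.I * D) = Complex.I * ((starRingEnd ℂ) z * D) := by ring
    rw [h5, Complex.I_mul_re]
  rw [h5, h5] at h4
  have hep : 0 < PresE d x := PresE_pos d h2
  have hep' : 0 < PresE d (t x) := PresE_pos d htx
  have hq1 : ‖(t x).1‖ ^ 2 * PresE d (t x) = ‖x.1‖ ^ 2 * PresE d x := by
    have h6 := rad_rpow hd0 h2
    have h7 := rad_rpow hd0 htx
    rw [hq, h6, div_eq_mul_inv, div_eq_mul_inv] at h7
    exact h7.symm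
  obtain ⟨e', he'⟩ : ∃ e', e' = PresE d (t x) := ⟨_, rfl⟩
  obtain ⟨e, he⟩ : ∃ e, e = PresE d x := ⟨_, rfl⟩
  rw [← he, ← he'] at h3 h4 hq1
  rw [← he] at hep
  rw [← he'] at hep'
  have hns : ∀ z D : ℂ, ((starRingEnd ℂ) z * D).re ^ 2 + ((starRingEnd ℂ) z * D).im ^ 2 =
      ‖z‖ ^ 2 * ‖D‖ ^ 2 := by
    intro z D
    have h5 : Complex.normSq ((starRingEnd ℂ) z * D) = ‖z‖ ^ 2 * ‖D‖ ^ 2 := by
      rw [Complex.normSq_mul, Complex.normSq_conj, Complex.normSq_eq_norm_sq,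
        Complex.normSq_eq_norm_sq]
    rw [← h5, Complex.normSq_apply]
    ring
  obtain ⟨D, hD⟩ : ∃ D, D = ‖Dz d x v‖ ^ 2 := ⟨_, rfl⟩
  obtain ⟨D', hD'⟩ : ∃ D', D' = ‖Dz d (t x) (fderiv ℂ t x v)‖ ^ 2 := ⟨_, rfl⟩
  have h6 : e' ^ 2 * (‖(t x).1‖ ^ 2 * D') = e ^ 2 * (‖x.1‖ ^ 2 * D) := by
    rw [hD, hD', ← hns, ← hns]
    linear_combination (e' * ((starRingEnd ℂ) (t x).1 * Dz d (t x) (fderiv ℂ t x v)).re +
      e * ((starRingEnd ℂ) x.1 * Dz d x v).re) * h3 - (e' *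
      ((starRingEnd ℂ) (t x).1 * Dz d (t x) (fderiv ℂ t x v)).im +
      e * ((starRingEnd ℂ) x.1 * Dz d x v).im) * h4
  have h7 : e' * D' = e * D := by
    have h8 : (‖x.1‖ ^ 2 * e) * (e' * D') = (‖x.1‖ ^ 2 * e) * (e * D) := by
      calc (‖x.1‖ ^ 2 * e) * (e' * D') = e' ^ 2 * (‖(t x).1‖ ^ 2 * D') := by
            rw [← hq1]
            ring
        _ = _ := by
            rw [h6]
            ring
    exact mul_left_cancel₀ (by positivity) h8
  have h8 : D' / ‖(t x).1‖ ^ 2 = D / ‖x.1‖ ^ 2 := by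
    rw [div_eq_div_iff hz'.ne' hx.ne']
    have h9 : e' * (D' * ‖x.1‖ ^ 2) = e' * (D * ‖(t x).1‖ ^ 2) := by
      linear_combination ‖x.1‖ ^ 2 * h7 - D * hq1
    exact mul_left_cancel₀ hep'.ne' h9
  have hr1 : 0 < 1 - rad d x := by linarith
  have h9 : hb (t x).2 (fderiv ℂ t x v).2 = hb x.2 v.2 := by
    have h10 := hz_eq hd0 hz0 htx (by rw [hq]; exact h1) (fderiv ℂ t x v)
    have h11 := hz_eq hd0 h0 h2 h1 v
    rw [hh v, ← h11] at h10
    unfold hz at h10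
    rw [hq, ← hD, ← hD'] at h10
    have h12 : rad d x * D' / (d ^ 2 * ‖(t x).1‖ ^ 2 * (1 - rad d x) ^ 2) =
        rad d x * D / (d ^ 2 * ‖x.1‖ ^ 2 * (1 - rad d x) ^ 2) := by
      calc rad d x * D' / (d ^ 2 * ‖(t x).1‖ ^ 2 * (1 - rad d x) ^ 2) =
          rad d x / (d ^ 2 * (1 - rad d x) ^ 2) * (D' / ‖(t x).1‖ ^ 2) := by
            rw [div_mul_div_comm]
            congr 1
            ring
        _ = rad d x / (d ^ 2 * (1 - rad d x) ^ 2) * (D / ‖x.1‖ ^ 2) := by rw [h8]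
        _ = _ := by
            rw [div_mul_div_comm]
            congr 1
            ring
    rw [h12] at h10
    have h13 : hb (t x).2 (fderiv ℂ t x v).2 / (1 - rad d x) = hb x.2 v.2 / (1 - rad d x) := by
      linarith
    rwa [div_left_inj' hr1.ne'] at h13
  have h10 : KC.h1 d A B (t x) (fderiv ℂ t x v) = KC.h1 d A B x v := by
    have h11 : ∀ (x v : E n), KC.h1 d A B x v = A * ((‖Dz d x v‖ ^ 2 +
        d * ‖x.1‖ ^ 2 * hb x.2 v.2) * PresE d x) + B * hb x.2 v.2 := by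
      intro x v
      unfold KC.h1 PresE
      rw [div_eq_mul_inv]
    rw [h11, h11, ← hD, ← hD', ← he, ← he', h9]
    linear_combination A * h7 + (A * d * hb x.2 v.2) * hq1
  unfold Nz
  rw [hq, hh v, h10]

end Pool.Agent.Nef6.KC
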