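import Pool.Agent.H.MP_6a1d6a_ag.KC.Glue
import Pool.Agent.H.MP_6a1d6a_ag.KC.Pres
import Pool.Agent.H.MP_6a1d6a_ag.CC.Tr

/-!
MP_6a1d6a_ag/KC, module Comp: the glued norm does not depend on the tube chart. Follow `CC/Comp.lean` (`comp_tube`); here
`tub_rad` and `tub_isom` are given. `CC.tr_smooth` is for charts of any model space.
-/

set_option autoImplicit false

open Set Filter Topology Metric
open scoped ContDiff Manifold

namespace Pool.Agent.Nef6.KC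

variable {n : ℕ} {Y : Type} [TopologicalSpace Y] [ChartedSpace (E n) Y] [IsManifold 𝓘(ℂ, E n) ω Y]
  (X : ConeManifold n Y)

theorem tube_lt {d R : ℝ} {x : E n} (hx : x ∈ Tube n d R) : ‖x.2‖ < 1 ∧ rad d x < 1 :=
  ⟨hx.1, hx.2.trans (Real.tanh_sq_lt_one (R / 2))⟩

private theorem Comp_open {d : ℝ} (hd : 0 < d) (R : ℝ) : IsOpen (Tube n d R) := by
  have h1 : IsOpen {x : E n | ‖x.2‖ < 1} := isOpen_lt (by fun_prop) continuous_const
  have h2 := (rad_cont (n := n) hd).isOpen_inter_preimage h1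
    (isOpen_Iio (a := Real.tanh (R / 2) ^ 2))
  exact h2

theorem comp_tube (i : X.ι) {A B σ s₁ : ℝ} (G : GlueData (X.d i) A B σ s₁)
    {φ φ' : OpenPartialHomeomorph Y (E n)}
    (h : φ ∈ X.tub i) (h' : φ' ∈ X.tub i) {y : Y} (hy : y ∈ φ.source) (hy' : y ∈ φ'.source)
    (v : E n) : Nz (X.d i) A B σ (φ' y) (fderiv ℂ (φ' ∘ φ.symm) (φ y) v) =
      Nz (X.d i) A B σ (φ y) v := by
  have hd0 : 0 < X.d i := X.d_pos i
  obtain ⟨hc, hT⟩ := X.tub_chart i φ h
  obtain ⟨hc', hT'⟩ := X.tub_chart i φ' h'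
  obtain ⟨t, ht⟩ : ∃ t : E n → E n, t = φ' ∘ φ.symm := ⟨_, rfl⟩
  obtain ⟨S, hS⟩ : ∃ S : Set (E n), S = φ.target ∩ φ.symm ⁻¹' φ'.source := ⟨_, rfl⟩
  have hSo : IsOpen S := by
    rw [hS]
    exact φ.symm.isOpen_inter_preimage φ'.open_source
  have hyS : φ y ∈ S := by
    rw [hS]
    refine ⟨φ.map_source hy, ?_⟩
    rw [mem_preimage, φ.left_inv hy]
    exact hy'
  have hxs : ∀ x ∈ S, x ∈ φ.target ∧ φ.symm x ∈ φ.source ∧ φ.symm x ∈ φ'.source ∧
      φ (φ.symm x) = x ∧ t x = φ' (φ.symm x) ∧ t x ∈ φ'.target := by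
    intro x hx
    rw [hS] at hx
    obtain ⟨h1, h2⟩ := hx
    refine ⟨h1, φ.map_target h1, h2, φ.right_inv h1, by rw [ht]; rfl, ?_⟩
    rw [ht]
    exact φ'.map_source h2
  have hnq : ∀ x ∈ S, ‖(t x).2‖ < 1 ∧ rad (X.d i) (t x) = rad (X.d i) x := by
    intro x hx
    obtain ⟨h1, h2, h3, h4, h5, h6⟩ := hxs x hx
    have h7 := X.tub_rad i φ h φ' h' (φ.symm x) h2 h3
    rw [h4, ← h5] at h7
    exact ⟨(tube_lt (hT' h6)).1, h7⟩
  have hsm : ∀ x ∈ S, ContDiffAt ℂ ω t x := by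
    intro x hx
    obtain ⟨h1, h2, h3, h4, h5, h6⟩ := hxs x hx
    have h7 := CC.tr_smooth hc hc' h2 h3
    rwa [h4, ← ht] at h7
  have hmain : ∀ x ∈ S, x.1 ≠ 0 → Nz (X.d i) A B σ (t x) (fderiv ℂ t x v) =
      Nz (X.d i) A B σ x v := by
    intro x hx h0
    obtain ⟨h1, h2, h3, h4, h5, h6⟩ := hxs x hx
    refine Nz_pres hd0 ((hsm x hx).differentiableAt (by simp)) ?_ h0 (tube_lt (hT h1)).1
      (tube_lt (hT h1)).2 ?_ v
    · filter_upwards [hSo.mem_nhds hx] with x' hx'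
      exact hnq x' hx'
    · intro w
      have h7 := X.tub_isom i φ h φ' h' (φ.symm x) h2 h3 (by rw [h4]; exact h0) w
      rwa [h4, ← h5, ← ht] at h7
  -- continuity at `φ y`
  have hty : t (φ y) = φ' y := by
    rw [ht, Function.comp_apply, φ.left_inv hy]
  obtain ⟨U, hUW, hyU, hU⟩ := Nz_loc G (Comp_open hd0 (X.R i))
    (fun x hx => tube_lt hx) (hT (φ.map_source hy))
  obtain ⟨U', hUW', hyU', hU'⟩ := Nz_loc G (Comp_open hd0 (X.R i))
    (fun x hx => tube_lt hx) (hT' (φ'.map_source hy'))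
  have hcF : ContinuousAt (fun x => Nz (X.d i) A B σ x v) (φ y) := by
    have h1 : ContinuousAt (fun q : E n × E n => Nz (X.d i) A B σ q.1 q.2) (φ y, v) :=
      hU.cont.continuousAt ((hU.op.prod isOpen_univ).mem_nhds ⟨hyU, mem_univ _⟩)
    exact h1.comp (f := fun x : E n => (x, v)) (by fun_prop)
  have hcG : ContinuousAt (fun x => Nz (X.d i) A B σ (t x) (fderiv ℂ t x v)) (φ y) := by
    have h1 : ContinuousAt (fun q : E n × E n => Nz (X.d i) A B σ q.1 q.2)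
        (t (φ y), fderiv ℂ t (φ y) v) := by
      rw [hty]
      exact hU'.cont.continuousAt ((hU'.op.prod isOpen_univ).mem_nhds ⟨hyU', mem_univ _⟩)
    have h2 : ContinuousAt t (φ y) := (hsm _ hyS).continuousAt
    have h3 : ContinuousAt (fun x => fderiv ℂ t x v) (φ y) := by
      have h4 : ContDiffAt ℂ 0 (fderiv ℂ t) (φ y) := (hsm _ hyS).fderiv_right (by simp)
      exact h4.continuousAt.clm_apply continuousAt_const
    exact h1.comp (f := fun x : E n => (t x, fderiv ℂ t x v)) (h2.prodMk h3)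
  have hdense : Dense {x : E n | x.1 ≠ 0} := by
    have h1 : Dense ((Prod.fst : E n → ℂ) ⁻¹' {0}ᶜ) :=
      (dense_compl_singleton (0 : ℂ)).preimage isOpenMap_fst
    exact h1
  have hne : (𝓝[{x : E n | x.1 ≠ 0}] (φ y)).NeBot := mem_closure_iff_nhdsWithin_neBot.1 (hdense _)
  have h1 := hcF.continuousWithinAt (s := {x : E n | x.1 ≠ 0}).tendsto
  have h2 := hcG.continuousWithinAt (s := {x : E n | x.1 ≠ 0}).tendsto
  have h3 : (fun x => Nz (X.d i) A B σ (t x) (fderiv ℂ t x v)) =ᶠ[𝓝[{x : E n | x.1 ≠ 0}] (φ y)]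
      fun x => Nz (X.d i) A B σ x v := by
    filter_upwards [self_mem_nhdsWithin, nhdsWithin_le_nhds (hSo.mem_nhds hyS)] with x hx hxS
    exact hmain x hxS hx
  have h4 := tendsto_nhds_unique (h2.congr' h3) h1
  rw [hty, ht] at h4
  exact h4

end Pool.Agent.Nef6.KC
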