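import Pool.Agent.H.MP_6a1d6a_ag.KC.Def

/-!
MP_6a1d6a_ag/KC, module Ineq: the inequality behind the peak functions of the metric near the divisor.

`t = ‖y‖²`, `r = 1 - t`, `λ = - log r`, `c = inner ℂ y w`, `Z = z c / r`, `V = ‖w‖²`, `K = |z|² hb y w = |z|² V / r + |Z|²`,
`F (m) = e^{mλ} (|a + m Z|² + m K)` (`= ` right side for `m = d`), `Q = ‖z w + a y‖² = |z|² V + |a|² t + 2 r Re (a conj Z)`.
Claim `F (d) ≥ |a|² + d Q`.
* `t = 0`: `y = 0`, both sides are `|a|² + d |z|² V`. Let `t > 0`. `|c|² ≤ t V`, so `|z|² V ≥ r² |Z|² / t`, `K ≥ |Z|²/t`; `λ ≥ t`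
  (`Real.log_le_sub_one_of_pos`), so `λ K ≥ |Z|²`.
* `F'' ≥ 0` on `[0, ∞)`: with `B = a + m Z`: `F'' = e^{mλ} (λ² (|B|² + m K) + 2 λ (2 Re (B conj Z) + K) + 2 |Z|²) ≥
  e^{mλ} (λ |B| - 2 |Z|)²`.
* `F (0) = |a|²`, `F' (0) = λ |a|² + 2 Re (a conj Z) + K ≥ Q`: the difference is
  `(λ - t) |a|² + 2 t Re (a conj Z) + |z|² V t / r + |Z|² ≥ (λ - t) |a|² - 2 t |a| |Z| + (1 + r) |Z|²`, and
  `t² ≤ (λ - t) (2 - t)`, i.e. `λ ≥ 2 t/(2 - t)` (derivative of `- log (1 - t) - 2 t/(2 - t)` is `t²/((1 - t)(2 - t)²)`).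
* So `F (d) ≥ F (0) + d F' (0)` (monotone derivative, or `ConvexOn` and the tangent line).
Other proofs are welcome (e.g. by the series). Checked numerically.
-/

set_option autoImplicit false

open Set Filter Topology Metric
open scoped ContDiff Manifold

namespace Pool.Agent.Nef6.KC

variable {F : Type} [NormedAddCommGroup F] [InnerProductSpace ℂ F]

/-- A quadratic form. -/
private theorem Ineq_quad {A p q x y : ℝ} (hA : 0 ≤ A) (hq : 0 ≤ q) (hp : p ^ 2 ≤ A * q) :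
    0 ≤ x ^ 2 * A + 2 * (x * y) * p + y ^ 2 * q := by
  rcases hA.eq_or_lt with h0 | h0
  · subst h0
    have h1 : p ^ 2 ≤ 0 := by simpa using hp
    have h2 : p = 0 := by
      have := le_antisymm h1 (sq_nonneg p)
      exact pow_eq_zero_iff (by norm_num) |>.1 this
    rw [h2]
    have := mul_nonneg (sq_nonneg y) hq
    linarith
  · have h1 : 0 ≤ A * (x ^ 2 * A + 2 * (x * y) * p + y ^ 2 * q) := by
      have h2 : 0 ≤ y ^ 2 * (A * q - p ^ 2) := mul_nonneg (sq_nonneg y) (by linarith)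
      have h3 : A * (x ^ 2 * A + 2 * (x * y) * p + y ^ 2 * q) =
          (x * A + y * p) ^ 2 + y ^ 2 * (A * q - p ^ 2) := by ring
      rw [h3]
      positivity
    exact nonneg_of_mul_nonneg_right h1 h0

private theorem Ineq_d1 (lam A p q K m : ℝ) :
    HasDerivAt (fun m : ℝ => Real.exp (m * lam) * (A + 2 * m * p + m ^ 2 * q + m * K))
      (Real.exp (m * lam) * (lam * (A + 2 * m * p + m ^ 2 * q + m * K) +
        (2 * p + 2 * m * q + K))) m := by
  have h1 : HasDerivAt (fun m : ℝ => m * lam) lam m := by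
    simpa using (hasDerivAt_id m).mul_const lam
  have h2 := h1.exp
  have h3 : HasDerivAt (fun m : ℝ => A + 2 * m * p + m ^ 2 * q + m * K)
      (2 * p + 2 * m * q + K) m := by
    have e1 : HasDerivAt (fun m : ℝ => 2 * m * p) (2 * p) m := by
      have := ((hasDerivAt_id m).const_mul 2).mul_const p
      simpa using this
    have e2 : HasDerivAt (fun m : ℝ => m ^ 2 * q) (2 * m * q) m := by
      have := (hasDerivAt_pow 2 m).mul_const q
      simpa using this
    have e3 : HasDerivAt (fun m : ℝ => m * K) K m := by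
      simpa using (hasDerivAt_id m).mul_const K
    have := ((e1.const_add A).add e2).add e3
    exact this
  have := h2.mul h3
  refine this.congr_deriv ?_
  ring

private theorem Ineq_d2 (lam A p q K m : ℝ) :
    HasDerivAt (fun m : ℝ => Real.exp (m * lam) * (lam * (A + 2 * m * p + m ^ 2 * q + m * K) +
        (2 * p + 2 * m * q + K)))
      (Real.exp (m * lam) * (lam ^ 2 * (A + 2 * m * p + m ^ 2 * q + m * K) +
        2 * lam * (2 * p + 2 * m * q + K) + 2 * q)) m := by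
  have h0 := (Ineq_d1 lam A p q K m).const_mul lam
  have h1 : HasDerivAt (fun m : ℝ => m * lam) lam m := by
    simpa using (hasDerivAt_id m).mul_const lam
  have h2 := h1.exp
  have h3 : HasDerivAt (fun m : ℝ => 2 * p + 2 * m * q + K) (2 * q) m := by
    have e2 : HasDerivAt (fun m : ℝ => 2 * m * q) (2 * q) m := by
      have := ((hasDerivAt_id m).const_mul 2).mul_const q
      simpa using this
    exact (e2.const_add (2 * p)).add_const K
  have h4 := h0.add (h2.mul h3)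
  refine (h4.congr_of_eventuallyEq (Filter.Eventually.of_forall fun m => ?_)).congr_deriv ?_
  · simp only [Pi.add_apply, Pi.mul_apply]
    ring
  · ring

private theorem Ineq_conv {lam A p q K R : ℝ} (hlam : 0 ≤ lam) (hA : 0 ≤ A) (hq : 0 ≤ q)
    (hK : 0 ≤ K) (hp : p ^ 2 ≤ A * q) (hlK : q ≤ lam * K) (hR : R ≤ lam * A + 2 * p + K)
    {d : ℝ} (hd : 0 ≤ d) :
    A + d * R ≤ Real.exp (d * lam) * (A + 2 * d * p + d ^ 2 * q + d * K) := by
  have hmono1 : MonotoneOn (fun m : ℝ => Real.exp (m * lam) *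
      (lam * (A + 2 * m * p + m ^ 2 * q + m * K) + (2 * p + 2 * m * q + K))) (Set.Ici 0) := by
    refine monotoneOn_of_deriv_nonneg (convex_Ici 0)
      (fun m _ => (Ineq_d2 lam A p q K m).continuousAt.continuousWithinAt)
      (fun m _ => (Ineq_d2 lam A p q K m).differentiableAt.differentiableWithinAt) ?_
    intro m hm
    rw [interior_Ici] at hm
    have hm0 : 0 < m := hm
    rw [(Ineq_d2 lam A p q K m).deriv]
    refine mul_nonneg (Real.exp_pos _).le ?_
    have h1 := Ineq_quad (x := lam) (y := lam * m + 2) hA hq hp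
    have h2 : 0 ≤ lam ^ 2 * (m * K) := by positivity
    nlinarith [h1, h2, hlK]
  have hmono2 : MonotoneOn (fun m : ℝ => Real.exp (m * lam) *
      (A + 2 * m * p + m ^ 2 * q + m * K) - m * R) (Set.Ici 0) := by
    have hder : ∀ m : ℝ, HasDerivAt (fun m : ℝ => Real.exp (m * lam) *
        (A + 2 * m * p + m ^ 2 * q + m * K) - m * R)
        (Real.exp (m * lam) * (lam * (A + 2 * m * p + m ^ 2 * q + m * K) +
        (2 * p + 2 * m * q + K)) - R) m := by
      intro m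
      have e3 : HasDerivAt (fun m : ℝ => m * R) R m := by
        simpa using (hasDerivAt_id m).mul_const R
      exact (Ineq_d1 lam A p q K m).sub e3
    refine monotoneOn_of_deriv_nonneg (convex_Ici 0)
      (fun m _ => (hder m).continuousAt.continuousWithinAt)
      (fun m _ => (hder m).differentiableAt.differentiableWithinAt) ?_
    intro m hm
    rw [interior_Ici] at hm
    have hm0 : 0 < m := hm
    rw [(hder m).deriv]
    have h1 := hmono1 (Set.mem_Ici.2 le_rfl) (Set.mem_Ici.2 hm0.le) hm0.le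
    simp only [zero_mul, Real.exp_zero, one_mul, mul_zero, add_zero, zero_pow, ne_eq,
      OfNat.ofNat_ne_zero, not_false_eq_true] at h1
    linarith
  have h1 := hmono2 (Set.mem_Ici.2 le_rfl) (Set.mem_Ici.2 hd) hd
  simp only [zero_mul, Real.exp_zero, one_mul, mul_zero, add_zero, zero_pow, ne_eq,
    OfNat.ofNat_ne_zero, not_false_eq_true, sub_zero] at h1
  linarith

private theorem Ineq_log {t : ℝ} (ht0 : 0 ≤ t) (ht1 : t < 1) :
    2 * t / (2 - t) ≤ -Real.log (1 - t) := by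
  have h1 : 0 < 1 - t := by linarith
  have h2 := Real.le_log_one_add_of_nonneg (x := t / (1 - t)) (by positivity)
  have h3 : 1 + t / (1 - t) = (1 - t)⁻¹ := by
    field_simp
    ring
  rw [h3, Real.log_inv] at h2
  have h4 : 2 * (t / (1 - t)) / (t / (1 - t) + 2) = 2 * t / (2 - t) := by
    have h5 : 0 < 2 - t := by linarith
    have h6 : 0 < t + 2 * (1 - t) := by linarith
    have h7 : t / (1 - t) + 2 = (2 - t) / (1 - t) := by
      field_simp
      ring
    rw [h7]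
    field_simp
  rwa [h4] at h2

private theorem Ineq_real {t A p q U : ℝ} (ht0 : 0 ≤ t) (ht1 : t < 1) (hA : 0 ≤ A) (hq : 0 ≤ q)
    (hU : 0 ≤ U) (hp : p ^ 2 ≤ A * q) (hc : (1 - t) ^ 2 * q ≤ t * U) {d : ℝ} (hd : 0 ≤ d) :
    A + d * (U + A * t + 2 * ((1 - t) * p)) ≤
      (A + 2 * d * p + d ^ 2 * q + d * (U / (1 - t) + q)) / (1 - t) ^ d := by
  have h1 : 0 < 1 - t := by linarith
  have h2 : 0 < 2 - t := by linarith
  have hl := Ineq_log ht0 ht1
  set lam := -Real.log (1 - t) with hlam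
  have hlt : t + t ^ 2 / (2 - t) ≤ lam := by
    refine le_trans (le_of_eq ?_) hl
    field_simp
    ring
  have hlt' : t ≤ lam := by
    have : 0 ≤ t ^ 2 / (2 - t) := by positivity
    linarith
  have hUr : (1 - t) * q ≤ t * U / (1 - t) := by
    rw [le_div_iff₀ h1]
    nlinarith [hc]
  have hK : 0 ≤ U / (1 - t) + q := by positivity
  have hlK : q ≤ lam * (U / (1 - t) + q) := by
    have h3 : t * (U / (1 - t) + q) ≤ lam * (U / (1 - t) + q) :=
      mul_le_mul_of_nonneg_right hlt' hK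
    have h4 : t * (U / (1 - t) + q) = t * U / (1 - t) + t * q := by ring
    linarith
  have hR : U + A * t + 2 * ((1 - t) * p) ≤ lam * A + 2 * p + (U / (1 - t) + q) := by
    have h3 : U / (1 - t) = U + t * U / (1 - t) := by
      field_simp
      ring
    -- `(λ - t) A + 2 t p + (2 - t) q ≥ 0`
    have h4 : 0 ≤ t ^ 2 / (2 - t) * A + 2 * t * p + (2 - t) * q := by
      have h5 := Ineq_quad (x := t) (y := 2 - t) hA hq hp
      have h6 : t ^ 2 / (2 - t) * A + 2 * t * p + (2 - t) * q =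
          (t ^ 2 * A + 2 * (t * (2 - t)) * p + (2 - t) ^ 2 * q) / (2 - t) := by
        field_simp
      rw [h6]
      positivity
    have h7 : t ^ 2 / (2 - t) * A ≤ (lam - t) * A :=
      mul_le_mul_of_nonneg_right (by linarith) hA
    rw [h3]
    nlinarith [h4, h7, hUr]
  have h5 := Ineq_conv (lam := lam) (ht0.trans hlt') hA hq hK hp hlK hR hd
  have h6 : (1 - t) ^ d = (Real.exp (d * lam))⁻¹ := by
    rw [Real.rpow_def_of_pos h1, ← Real.exp_neg]
    congr 1
    rw [hlam]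
    ring
  rw [h6, div_inv_eq_mul, mul_comm _ (Real.exp (d * lam))]
  exact h5

theorem star {d : ℝ} (hd : 0 ≤ d) {y : F} (hy : ‖y‖ < 1) (a z : ℂ) (w : F) :
    ‖a‖ ^ 2 + d * ‖z • w + a • y‖ ^ 2 ≤
      (‖a + d * z * inner ℂ y w / ((1 - ‖y‖ ^ 2 : ℝ) : ℂ)‖ ^ 2 + d * ‖z‖ ^ 2 * hb y w) /
        (1 - ‖y‖ ^ 2) ^ d := by
  set t := ‖y‖ ^ 2 with ht
  have ht0 : 0 ≤ t := sq_nonneg _
  have ht1 : t < 1 := by
    rw [ht]
    have := norm_nonneg y
    nlinarith
  have h1 : 0 < 1 - t := by linarith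
  set c : ℂ := inner ℂ y w with hc
  set Z : ℂ := z * c / ((1 - t : ℝ) : ℂ) with hZ
  set p : ℝ := (a * (starRingEnd ℂ) Z).re with hp
  have hZn : ‖Z‖ ^ 2 * (1 - t) ^ 2 = ‖z‖ ^ 2 * ‖c‖ ^ 2 := by
    have h2 : Z * ((1 - t : ℝ) : ℂ) = z * c := by
      rw [hZ, div_mul_cancel₀]
      exact_mod_cast h1.ne'
    have h3 : ‖Z‖ * (1 - t) = ‖z‖ * ‖c‖ := by
      rw [← norm_mul, ← h2, norm_mul, Complex.norm_real, Real.norm_eq_abs, abs_of_pos h1]
    rw [← mul_pow, ← mul_pow, h3]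
  have hcs : ‖c‖ ^ 2 ≤ t * ‖w‖ ^ 2 := by
    rw [ht, ← mul_pow]
    exact pow_le_pow_left₀ (norm_nonneg _) (norm_inner_le_norm y w) 2
  have hp2 : p ^ 2 ≤ ‖a‖ ^ 2 * ‖Z‖ ^ 2 := by
    rw [← mul_pow, ← sq_abs]
    refine pow_le_pow_left₀ (abs_nonneg _) ?_ 2
    refine (Complex.abs_re_le_norm _).trans ?_
    rw [norm_mul, RCLike.norm_conj]
  have hcU : (1 - t) ^ 2 * ‖Z‖ ^ 2 ≤ t * (‖z‖ ^ 2 * ‖w‖ ^ 2) := by
    rw [mul_comm, hZn]
    nlinarith [mul_le_mul_of_nonneg_left hcs (sq_nonneg ‖z‖)]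
  have hmain := Ineq_real ht0 ht1 (sq_nonneg ‖a‖) (sq_nonneg ‖Z‖)
    (mul_nonneg (sq_nonneg ‖z‖) (sq_nonneg ‖w‖)) hp2 hcU hd
  have e1 : ‖z • w + a • y‖ ^ 2 = ‖z‖ ^ 2 * ‖w‖ ^ 2 + ‖a‖ ^ 2 * t + 2 * ((1 - t) * p) := by
    have h4 : RCLike.re (inner ℂ (z • w) (a • y) : ℂ) = (1 - t) * p := by
      have h5 : (inner ℂ (z • w) (a • y) : ℂ) =
          ((1 - t : ℝ) : ℂ) * (a * (starRingEnd ℂ) Z) := by
        rw [inner_smul_left, inner_smul_right, ← inner_conj_symm w y, ← hc, hZ]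
        rw [map_div₀, map_mul, Complex.conj_ofReal]
        have : ((1 - t : ℝ) : ℂ) ≠ 0 := by exact_mod_cast h1.ne'
        field_simp
      rw [h5, hp]
      exact Complex.re_ofReal_mul _ _
    rw [@norm_add_sq ℂ, h4, norm_smul, norm_smul, mul_pow, mul_pow, ht]
    ring
  have e2 : ‖a + d * z * c / ((1 - t : ℝ) : ℂ)‖ ^ 2 =
      ‖a‖ ^ 2 + 2 * d * p + d ^ 2 * ‖Z‖ ^ 2 := by
    have h4 : (d : ℂ) * z * c / ((1 - t : ℝ) : ℂ) = (d : ℂ) * Z := by
      rw [hZ]
      ring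
    rw [h4, ← Complex.normSq_eq_norm_sq, ← Complex.normSq_eq_norm_sq,
      ← Complex.normSq_eq_norm_sq, Complex.normSq_add, Complex.normSq_mul, Complex.normSq_ofReal,
      map_mul, Complex.conj_ofReal]
    have h5 : (a * ((d : ℂ) * (starRingEnd ℂ) Z)).re = d * p := by
      rw [hp, mul_left_comm]
      exact Complex.re_ofReal_mul _ _
    rw [h5]
    ring
  have e3 : ‖z‖ ^ 2 * hb y w = ‖z‖ ^ 2 * ‖w‖ ^ 2 / (1 - t) + ‖Z‖ ^ 2 := by
    have h4 : ‖Z‖ ^ 2 = ‖z‖ ^ 2 * ‖c‖ ^ 2 / (1 - t) ^ 2 := by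
      rw [← hZn]
      field_simp
    rw [h4, hb, ← ht, ← hc]
    ring
  rw [e1, e2, mul_assoc d, e3]
  exact hmain

end Pool.Agent.Nef6.KC
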