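import Pool.Agent.H.MP_6a1d6a_ag.KC.Aut
import Pool.Agent.H.MP_6a1d6a_ag.KC.Ineq
import Pool.Agent.H.MP_6a1d6a_ag.CC.Peak

/-!
MP_6a1d6a_ag/KC, module Cyl1: the metric `h1` has a plurisubharmonic logarithm. Follow `CC/Cyl1.lean`.

* For `a` in the ball put `J (y) = exp (d (log s - Log (del a y)))`, `s = sa a` (`Complex.log`; `del a y` has positive real
  part), so `‖J y‖ = (s/|del a y|)^d`, `J' = d J [a, w]/del a y`. The map `L (z, y) = (z J y, aut a y)`,
  `L' ((z, y), v) = ((v_z + d z [a, v_y]/del a y) J y, aut' a y v_y)`. By `aut_conn`: `Dz d (L x) (L' (x, v)) = J y · Dz d x v`; by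
  `aut_one_sub`: `(1 - ‖aut a y‖²)^d = ‖J y‖² (1 - ‖y‖²)^d` (`Real.mul_rpow`, `Real.rpow_mul`...); so with `aut_hb`:
  `h1 d A B (L x) (L' (x, v)) = h1 d A B x v`.
* Peak at a point `(z₀, 0)`: `CC.peak3` with `P = √A v.1`, `Q = √(A d) (x.1 v.2 + v.1 x.2)`, `R = √B v.2`;
  `‖P‖² + ‖Q‖² + ‖R‖² ≤ h1` by `star` and `‖w‖² ≤ hb y w`; equality for `y = 0`.
* General point: `PeakAt.pull` with `a = x₀.2` (`aut_self`).
* `pos`: if `v.2 ≠ 0` the last term is positive, else `Dz = v.1 ≠ 0`. `cont`, `hom`: elementary (`Real.rpow` with positive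
  base `1 - ‖y‖²`, fixed exponent).
-/

set_option autoImplicit false

open Set Filter Topology Metric
open scoped ContDiff Manifold

namespace Pool.Agent.Nef6.KC

variable {n : ℕ}

private theorem Cyl1_pos {x : E n} (hx : ‖x.2‖ < 1) : 0 < 1 - ‖x.2‖ ^ 2 := by
  have h0 := norm_nonneg x.2
  nlinarith

theorem h1_nonneg {d A B : ℝ} (hd0 : 0 < d) (hA : 0 < A) (hB : 0 < B) {x : E n} (hx : ‖x.2‖ < 1) (v : E n) :
    0 ≤ h1 d A B x v := by
  have hb := hb_nonneg hx v.2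
  have hr := Cyl1_pos hx
  unfold h1
  positivity

private theorem Cyl1_h1_pos {d A B : ℝ} (hd0 : 0 < d) (hA : 0 < A) (hB : 0 < B) {x : E n} (hx : ‖x.2‖ < 1)
    {v : E n} (hv : v ≠ 0) : 0 < h1 d A B x v := by
  have hr := Cyl1_pos hx
  unfold h1
  by_cases h2 : v.2 = 0
  · have h1 : v.1 ≠ 0 := by
      intro h1
      exact hv (Prod.ext h1 h2)
    have hD : Dz d x v = v.1 := by simp [Dz, h2]
    have h3 : 0 < ‖Dz d x v‖ := by rw [hD]; exact norm_pos_iff.2 h1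
    have hb := hb_nonneg hx v.2
    positivity
  · have hb := hb_pos hx h2
    positivity

private theorem Cyl1_smul {d A B : ℝ} (x v : E n) (c : ℂ) :
    h1 d A B x (c • v) = ‖c‖ ^ 2 * h1 d A B x v := by
  have hD : Dz d x (c • v) = c * Dz d x v := by
    simp only [Dz, Prod.smul_fst, Prod.smul_snd, inner_smul_right, smul_eq_mul]
    ring
  have hb : hb x.2 (c • v).2 = ‖c‖ ^ 2 * hb x.2 v.2 := by
    simp only [KC.hb, Prod.smul_snd, inner_smul_right, norm_smul, norm_mul]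
    ring
  unfold h1
  rw [hD, hb, norm_mul]
  ring

private theorem Cyl1_cont (d A B : ℝ) :
    ContinuousOn (fun q : E n × E n => h1 d A B q.1 q.2) ({x : E n | ‖x.2‖ < 1} ×ˢ univ) := by
  have h0 : ∀ q ∈ ({x : E n | ‖x.2‖ < 1} ×ˢ (univ : Set (E n))), 1 - ‖q.1.2‖ ^ 2 ≠ 0 :=
    fun q hq => (Cyl1_pos hq.1).ne'
  have c1 : Continuous fun q : E n × E n => 1 - ‖q.1.2‖ ^ 2 := by fun_prop
  have c2 : ContinuousOn (fun q : E n × E n => hb q.1.2 q.2.2)
      ({x : E n | ‖x.2‖ < 1} ×ˢ univ) := by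
    unfold hb
    refine ContinuousOn.add ?_ ?_
    · exact ContinuousOn.div (by fun_prop) c1.continuousOn h0
    · exact ContinuousOn.div (by fun_prop) (c1.pow 2).continuousOn
        fun q hq => pow_ne_zero 2 (h0 q hq)
  have c3 : ContinuousOn (fun q : E n × E n => Dz d q.1 q.2)
      ({x : E n | ‖x.2‖ < 1} ×ˢ univ) := by
    unfold Dz
    refine ContinuousOn.add (by fun_prop) ?_
    refine ContinuousOn.div (by fun_prop) (Complex.continuous_ofReal.comp c1).continuousOn ?_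
    intro q hq
    exact_mod_cast h0 q hq
  have c4 : ContinuousOn (fun q : E n × E n => (1 - ‖q.1.2‖ ^ 2) ^ d)
      ({x : E n | ‖x.2‖ < 1} ×ˢ univ) :=
    c1.continuousOn.rpow_const fun q hq => Or.inl (h0 q hq)
  unfold h1
  refine ContinuousOn.add (ContinuousOn.mul
    continuousOn_const (ContinuousOn.div ?_ c4 ?_)) (ContinuousOn.mul continuousOn_const c2)
  · refine ContinuousOn.add (c3.norm.pow 2) (ContinuousOn.mul (by fun_prop) c2)
  · intro q hq
    exact (Real.rpow_pos_of_pos (Cyl1_pos hq.1) d).ne'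

/-- The factor of the automorphism in the direction of the fibres. -/
private noncomputable def Cyl1_J (d : ℝ) (a y : EuclideanSpace ℂ (Fin n)) : ℂ :=
  Complex.exp ((d : ℂ) * (((Real.log (sa a) : ℝ) : ℂ) - Complex.log (del a y)))

private theorem Cyl1_J_norm (d : ℝ) {a y : EuclideanSpace ℂ (Fin n)} (ha : ‖a‖ < 1)
    (hy : ‖y‖ < 1) : (1 - ‖aut a y‖ ^ 2) ^ d = ‖Cyl1_J d a y‖ ^ 2 * (1 - ‖y‖ ^ 2) ^ d := by
  have hs := sa_pos ha
  have hn : 0 < ‖del a y‖ := norm_pos_iff.2 (del_ne ha hy)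
  have hr : 0 < 1 - ‖y‖ ^ 2 := by
    have h0 := norm_nonneg y
    nlinarith
  have h1 : ‖Cyl1_J d a y‖ = (sa a / ‖del a y‖) ^ d := by
    rw [Cyl1_J, Complex.norm_exp, Real.rpow_def_of_pos (div_pos hs hn),
      Real.log_div hs.ne' hn.ne', Complex.re_ofReal_mul, Complex.sub_re, Complex.ofReal_re,
      Complex.log_re, mul_comm]
  rw [aut_one_sub ha hy, Real.mul_rpow (by positivity) hr.le, h1,
    Real.rpow_pow_comm (by positivity)]

private theorem Cyl1_J_ne (d : ℝ) (a y : EuclideanSpace ℂ (Fin n)) : Cyl1_J d a y ≠ 0 :=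
  Complex.exp_ne_zero _

private theorem Cyl1_del_diff (a : EuclideanSpace ℂ (Fin n)) : Differentiable ℂ (del a) := by
  unfold del
  exact (innerSL ℂ a).differentiable.const_sub 1

private theorem Cyl1_J_diff (d : ℝ) {a : EuclideanSpace ℂ (Fin n)} (ha : ‖a‖ < 1) :
    DifferentiableOn ℂ (Cyl1_J d a) (ball 0 1) := by
  have h1 : DifferentiableOn ℂ (fun y => Complex.log (del a y)) (ball 0 1) :=
    (Cyl1_del_diff a).differentiableOn.clog fun y hy =>
      Or.inl (del_re ha (mem_ball_zero_iff.1 hy))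
  exact ((h1.const_sub _).const_mul _).cexp

/-- The map. -/
private noncomputable def Cyl1_L (d : ℝ) (a : EuclideanSpace ℂ (Fin n)) (x : E n) : E n :=
  (x.1 * Cyl1_J d a x.2, aut a x.2)

/-- Its derivative. -/
private noncomputable def Cyl1_L' (d : ℝ) (a : EuclideanSpace ℂ (Fin n)) (q : E n × E n) : E n :=
  ((q.2.1 + d * q.1.1 * (inner ℂ a q.2.2 / del a q.1.2)) * Cyl1_J d a q.1.2,
    aut' a q.1.2 q.2.2)

private theorem Cyl1_inv {d A B : ℝ} {a : EuclideanSpace ℂ (Fin n)} (ha : ‖a‖ < 1) {x : E n}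
    (hx : ‖x.2‖ < 1) (v : E n) : h1 d A B (Cyl1_L d a x) (Cyl1_L' d a (x, v)) = h1 d A B x v := by
  have hD : Dz d (Cyl1_L d a x) (Cyl1_L' d a (x, v)) = Cyl1_J d a x.2 * Dz d x v := by
    have h := aut_conn ha hx v.2
    simp only [Dz, Cyl1_L, Cyl1_L']
    rw [mul_div_assoc, mul_div_assoc, ← h]
    ring
  have hJ := Cyl1_J_norm d ha hx
  have hJ0 : ‖Cyl1_J d a x.2‖ ≠ 0 := norm_ne_zero_iff.2 (Cyl1_J_ne d a x.2)
  have hr := (Real.rpow_pos_of_pos (Cyl1_pos hx) d).ne'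
  unfold h1
  rw [hD]
  simp only [Cyl1_L, Cyl1_L', norm_mul]
  rw [hJ, aut_hb ha hx]
  congr 1
  congr 1
  field_simp

private theorem Cyl1_maps (d : ℝ) {a : EuclideanSpace ℂ (Fin n)} (ha : ‖a‖ < 1) :
    MapsTo (Cyl1_L d a) {x : E n | ‖x.2‖ < 1} {x : E n | ‖x.2‖ < 1} :=
  fun _ hx => aut_lt ha hx

private theorem Cyl1_L_diff (d : ℝ) {a : EuclideanSpace ℂ (Fin n)} (ha : ‖a‖ < 1) :
    DifferentiableOn ℂ (Cyl1_L d a) {x : E n | ‖x.2‖ < 1} := by
  have hm : MapsTo (fun x : E n => x.2) {x : E n | ‖x.2‖ < 1} (ball 0 1) :=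
    fun x hx => mem_ball_zero_iff.2 hx
  have h1 : DifferentiableOn ℂ (fun x : E n => Cyl1_J d a x.2) {x : E n | ‖x.2‖ < 1} :=
    (Cyl1_J_diff d ha).comp differentiableOn_snd hm
  have h2 : DifferentiableOn ℂ (fun x : E n => aut a x.2) {x : E n | ‖x.2‖ < 1} :=
    (aut_diff ha).comp differentiableOn_snd hm
  exact (differentiableOn_fst.mul h1).prodMk h2

private theorem Cyl1_L'_diff (d : ℝ) {a : EuclideanSpace ℂ (Fin n)} (ha : ‖a‖ < 1) :
    DifferentiableOn ℂ (Cyl1_L' d a) ({x : E n | ‖x.2‖ < 1} ×ˢ univ) := by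
  have hm : MapsTo (fun q : E n × E n => q.1.2) ({x : E n | ‖x.2‖ < 1} ×ˢ univ) (ball 0 1) :=
    fun q hq => mem_ball_zero_iff.2 hq.1
  have hd : Differentiable ℂ (fun q : E n × E n => q.1.2) :=
    differentiable_snd.comp differentiable_fst
  have h1 : DifferentiableOn ℂ (fun q : E n × E n => Cyl1_J d a q.1.2)
      ({x : E n | ‖x.2‖ < 1} ×ˢ univ) :=
    (Cyl1_J_diff d ha).comp hd.differentiableOn hm
  have h2 : DifferentiableOn ℂ (fun q : E n × E n => aut' a q.1.2 q.2.2)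
      ({x : E n | ‖x.2‖ < 1} ×ˢ univ) :=
    (aut'_diff ha).comp (f := fun q : E n × E n => (q.1.2, q.2.2))
      (hd.prodMk (differentiable_snd.comp differentiable_snd)).differentiableOn
      fun q hq => ⟨hm hq, mem_univ _⟩
  have h3 : Differentiable ℂ fun q : E n × E n => (inner ℂ a q.2.2 : ℂ) :=
    (innerSL ℂ a).differentiable.comp (differentiable_snd.comp differentiable_snd)
  have h4 : Differentiable ℂ fun q : E n × E n => del a q.1.2 := (Cyl1_del_diff a).comp hd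
  have h5 : DifferentiableOn ℂ (fun q : E n × E n => inner ℂ a q.2.2 / del a q.1.2)
      ({x : E n | ‖x.2‖ < 1} ×ˢ univ) := by
    simp only [div_eq_mul_inv]
    exact h3.differentiableOn.mul (h4.differentiableOn.inv fun q hq => del_ne ha hq.1)
  have h6 : Differentiable ℂ fun q : E n × E n => (d : ℂ) * q.1.1 :=
    (differentiable_fst.comp differentiable_fst).const_mul _
  have h7 : Differentiable ℂ fun q : E n × E n => q.2.1 :=
    differentiable_fst.comp differentiable_snd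
  exact ((h7.differentiableOn.add (h6.differentiableOn.mul h5)).mul h1).prodMk h2

private theorem Cyl1_hb_ge {y : EuclideanSpace ℂ (Fin n)} (hy : ‖y‖ < 1)
    (w : EuclideanSpace ℂ (Fin n)) : ‖w‖ ^ 2 ≤ hb y w := by
  have hr : 0 < 1 - ‖y‖ ^ 2 := by
    have h0 := norm_nonneg y
    nlinarith
  have h1 : ‖w‖ ^ 2 ≤ ‖w‖ ^ 2 / (1 - ‖y‖ ^ 2) := by
    rw [le_div_iff₀ hr]
    nlinarith [sq_nonneg ‖w‖, sq_nonneg ‖y‖, mul_nonneg (sq_nonneg ‖w‖) (sq_nonneg ‖y‖)]
  have h2 : 0 ≤ ‖(inner ℂ y w : ℂ)‖ ^ 2 / (1 - ‖y‖ ^ 2) ^ 2 := by positivity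
  unfold hb
  linarith

private theorem Cyl1_peak_zero {d A B : ℝ} (hd0 : 0 < d) (hA : 0 < A) (hB : 0 < B) (x₀ v₀ : E n)
    (hx : x₀.2 = 0) (hv : v₀ ≠ 0) :
    PeakAt (fun x v : E n => √(h1 d A B x v)) {x : E n | ‖x.2‖ < 1} x₀ v₀ := by
  have hx1 : ‖x₀.2‖ < 1 := by rw [hx, norm_zero]; exact one_pos
  have n1 : ‖((√A : ℝ) : ℂ)‖ ^ 2 = A := by
    rw [Complex.norm_real, Real.norm_eq_abs, sq_abs, Real.sq_sqrt (by positivity)]
  have n2 : ‖((√(A * d) : ℝ) : ℂ)‖ ^ 2 = A * d := by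
    rw [Complex.norm_real, Real.norm_eq_abs, sq_abs, Real.sq_sqrt (by positivity)]
  have n3 : ‖((√B : ℝ) : ℂ)‖ ^ 2 = B := by
    rw [Complex.norm_real, Real.norm_eq_abs, sq_abs, Real.sq_sqrt (by positivity)]
  refine CC.peak3 (fun q : E n × E n => ((√A : ℝ) : ℂ) * q.2.1)
    (fun q : E n × E n => ((√(A * d) : ℝ) : ℂ) • (q.1.1 • q.2.2 + q.2.1 • q.1.2))
    (fun q : E n × E n => ((√B : ℝ) : ℂ) • q.2.2) ?_ ?_ ?_ ?_ ?_ ?_ ?_
  · exact Differentiable.differentiableOn (by fun_prop)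
  · exact Differentiable.differentiableOn (by fun_prop)
  · exact Differentiable.differentiableOn (by fun_prop)
  · exact Real.sqrt_pos.2 (Cyl1_h1_pos hd0 hA hB hx1 hv)
  · intro x _ v
    exact Real.sqrt_nonneg _
  · intro x hx v
    dsimp only
    rw [Real.sq_sqrt (h1_nonneg hd0 hA hB hx v), norm_mul, norm_smul, norm_smul, mul_pow, mul_pow,
      mul_pow, n1, n2, n3]
    have h := star hd0.le hx v.1 x.1 v.2
    have h' := Cyl1_hb_ge hx v.2
    have h5 := mul_le_mul_of_nonneg_left h (by positivity : 0 ≤ A)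
    have h6 := mul_le_mul_of_nonneg_left h' (by positivity : 0 ≤ B)
    unfold h1 Dz
    nlinarith [h5, h6]
  · dsimp only
    rw [Real.sq_sqrt (h1_nonneg hd0 hA hB hx1 v₀), norm_mul, norm_smul, norm_smul, mul_pow, mul_pow,
      mul_pow, n1, n2, n3]
    have hD : Dz d x₀ v₀ = v₀.1 := by simp [Dz, hx]
    have hh : hb x₀.2 v₀.2 = ‖v₀.2‖ ^ 2 := by simp [hb, hx]
    unfold h1
    rw [hD, hh, hx]
    simp only [smul_zero, add_zero, norm_zero, ne_eq, OfNat.ofNat_ne_zero, not_false_eq_true,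
      zero_pow, sub_zero, Real.one_rpow, div_one, norm_smul]
    ring

theorem h1_loc {d A B : ℝ} (hd0 : 0 < d) (hA : 0 < A) (hB : 0 < B) :
    LocNorm (fun x v : E n => √(h1 d A B x v)) {x | ‖x.2‖ < 1} := by
  refine ⟨?_, ?_, ?_, ?_, ?_⟩
  · exact isOpen_lt (by fun_prop) continuous_const
  · exact Real.continuous_sqrt.comp_continuousOn (Cyl1_cont d A B)
  · intro x hx v hv
    exact Real.sqrt_pos.2 (Cyl1_h1_pos hd0 hA hB hx hv)
  · intro x _ c v
    rw [Cyl1_smul, Real.sqrt_mul (sq_nonneg _), Real.sqrt_sq (norm_nonneg _)]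
  · intro x hx v hv
    have ha : ‖x.2‖ < 1 := hx
    have hz : (Cyl1_L d x.2 x).2 = 0 := aut_self ha
    have hv' : Cyl1_L' d x.2 (x, v) ≠ 0 := by
      intro h
      apply hv
      have h2 : v.2 = 0 := by
        by_contra h0
        exact aut'_ne ha ha h0 (congrArg Prod.snd h)
      have h1 : v.1 = 0 := by
        have := congrArg Prod.fst h
        simpa [Cyl1_L', h2, Cyl1_J_ne] using this
      exact Prod.ext h1 h2
    refine CC.PeakAt.pull (N := fun x v : E n => √(h1 d A B x v)) (U := {x : E n | ‖x.2‖ < 1})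
      (L := Cyl1_L d x.2) (L' := Cyl1_L' d x.2) (Cyl1_peak_zero hd0 hA hB _ _ hz hv')
      (Cyl1_L_diff d ha) (Cyl1_L'_diff d ha) (Cyl1_maps d ha) hx ?_
    intro y hy u
    rw [Cyl1_inv ha hy]

end Pool.Agent.Nef6.KC
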