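import Pool.Agent.H.MP_6a1d6a_ag.KC.Bal

/-!
MP_6a1d6a_ag/KC, module Cyl2: the cone metric off the divisor. Compare `CC/Cyl2.lean`.

* `hz_eq`: `hyp_dec` at the point `(|z|^(1/d), y)` (in the ball, as `rad d x < 1`: `|z|^(2/d) = (|z|^(1/d))²`), with
  `v_u = |z|^(1/d) v_z/(d z)`: `v_u + |z|^(1/d) c/r = |z|^(1/d) Dz/(d z)`, `1 - |u|² - |y|² = r (1 - rad)`, `|u|² = r rad`.
* `cone_loc`: near `x₀ = (z₀, y₀)`, `z₀ ≠ 0`: `U = {x | |z - z₀| < |z₀|, ‖y‖ < 1, rad d x < 1}` and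
  `L (z, y) = (exp ((Log z₀ + Log (z/z₀))/d), y)`, `L' (x, v) = (L(x).1 · v.1/(d z), v.2)`. `|L(x).1| = |z|^(1/d)`, so
  `L(x).1 = θ |z|^(1/d)` with `|θ| = 1` and `cone d x v = hyp (L x) (L' (x, v))` by `hyp_rot`; `LocNorm.pull` of `hyp_loc`.
-/

set_option autoImplicit false

open Set Filter Topology Metric
open scoped ContDiff Manifold

namespace Pool.Agent.Nef6.KC

variable {n : ℕ}

private theorem Cyl2_r {y : EuclideanSpace ℂ (Fin n)} (h2 : ‖y‖ < 1) : 0 < 1 - ‖y‖ ^ 2 := by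
  have h1 := norm_nonneg y
  nlinarith

theorem rad_nonneg (d : ℝ) {x : E n} (h2 : ‖x.2‖ < 1) : 0 ≤ rad d x := by
  have h1 := Cyl2_r h2
  unfold rad
  positivity

theorem rad_pos (d : ℝ) {x : E n} (h2 : ‖x.2‖ < 1) (hx : x.1 ≠ 0) : 0 < rad d x := by
  have h1 := Cyl2_r h2
  have h3 := norm_pos_iff.2 hx
  unfold rad
  positivity

theorem rad_zero {d : ℝ} (hd : 0 < d) {x : E n} (hx : x.1 = 0) : rad d x = 0 := by
  unfold rad
  rw [hx, norm_zero, Real.zero_rpow (by positivity), zero_div]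

theorem rad_cont {d : ℝ} (hd : 0 < d) : ContinuousOn (rad d : E n → ℝ) {x | ‖x.2‖ < 1} := by
  unfold rad
  refine ContinuousOn.div ?_ (by fun_prop) fun x hx => (Cyl2_r hx).ne'
  refine Continuous.continuousOn ?_
  exact Continuous.rpow_const (by fun_prop) fun x => Or.inr (by positivity)

/-- `rad ^ d = |z|² / (1 - |y|²)^d` -/
theorem rad_rpow {d : ℝ} (hd : 0 < d) {x : E n} (h2 : ‖x.2‖ < 1) :
    rad d x ^ d = ‖x.1‖ ^ 2 / (1 - ‖x.2‖ ^ 2) ^ d := by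
  have h1 := Cyl2_r h2
  unfold rad
  rw [Real.div_rpow (by positivity) h1.le, ← Real.rpow_mul (norm_nonneg _),
    div_mul_cancel₀ _ hd.ne']
  norm_num

/-- `rad = ρ² / r`, `ρ = |z|^(1/d)` -/
private theorem Cyl2_rad (d : ℝ) (x : E n) :
    rad d x = (‖x.1‖ ^ (1 / d)) ^ 2 / (1 - ‖x.2‖ ^ 2) := by
  have h1 : (‖x.1‖ ^ (1 / d)) ^ 2 = ‖x.1‖ ^ (2 / d) := by
    rw [← Real.rpow_natCast (‖x.1‖ ^ (1 / d)), ← Real.rpow_mul (norm_nonneg _)]
    congr 1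
    push_cast
    ring
  unfold rad
  rw [h1]

private theorem Cyl2_mem {d : ℝ} {x : E n} (h2 : ‖x.2‖ < 1) (h : rad d x < 1) :
    (((‖x.1‖ ^ (1 / d) : ℝ) : ℂ), x.2) ∈ Bl n := by
  have h1 := Cyl2_r h2
  rw [Cyl2_rad, div_lt_one h1] at h
  have h3 : ‖((‖x.1‖ ^ (1 / d) : ℝ) : ℂ)‖ = ‖x.1‖ ^ (1 / d) := by
    rw [Complex.norm_real, Real.norm_eq_abs, abs_of_nonneg (by positivity)]
  show ‖((‖x.1‖ ^ (1 / d) : ℝ) : ℂ)‖ ^ 2 + ‖x.2‖ ^ 2 < 1
  rw [h3]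
  linarith

theorem hz_eq {d : ℝ} (hd : 0 < d) {x : E n} (hx : x.1 ≠ 0) (h2 : ‖x.2‖ < 1) (h : rad d x < 1)
    (v : E n) : hz d x v = cone d x v := by
  have h1 := Cyl2_r h2
  have hzp := norm_pos_iff.2 hx
  have hmem := Cyl2_mem h2 h
  have hrad := Cyl2_rad d x
  unfold cone
  rw [hyp_dec hmem]
  obtain ⟨ρ, hρ⟩ : ∃ ρ : ℝ, ρ = ‖x.1‖ ^ (1 / d) := ⟨_, rfl⟩
  have hρ0 : 0 < ρ := by
    rw [hρ]
    positivity
  rw [← hρ] at hrad
  rw [← hρ]
  simp only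
  obtain ⟨r, hr⟩ : ∃ r : ℝ, r = 1 - ‖x.2‖ ^ 2 := ⟨_, rfl⟩
  have hn : ‖(ρ : ℂ)‖ = ρ := by
    rw [Complex.norm_real, Real.norm_eq_abs, abs_of_nonneg hρ0.le]
  have hR : 1 - ‖(ρ : ℂ)‖ ^ 2 - ‖x.2‖ ^ 2 = r * (1 - rad d x) := by
    rw [hrad, hn, ← hr]
    have : r ≠ 0 := by
      rw [hr]
      exact h1.ne'
    field_simp
    rw [hr]
    ring
  have hr0 : 0 < r := by
    rw [hr]
    exact h1
  have hrc : (r : ℂ) ≠ 0 := by exact_mod_cast hr0.ne'
  have hdc : (d : ℂ) ≠ 0 := by exact_mod_cast hd.ne'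
  rw [hR]
  unfold hz
  rw [← hr]
  have hD : (ρ : ℂ) * (v.1 / (d * x.1)) + ρ * inner ℂ x.2 v.2 / ((r : ℝ) : ℂ) =
      ρ / (d * x.1) * Dz d x v := by
    unfold Dz
    rw [← hr]
    field_simp
  rw [hD, norm_mul, norm_div, norm_mul, hn, Complex.norm_real, Real.norm_eq_abs, abs_of_pos hd]
  have h4 : 0 < 1 - rad d x := by linarith
  obtain ⟨σ, hσ⟩ : ∃ σ : ℝ, σ = 1 - rad d x := ⟨_, rfl⟩
  rw [← hσ] at h4 ⊢
  rw [hrad, ← hr]
  field_simp

theorem tube_open {d : ℝ} (hd : 0 < d) (R : ℝ) : IsOpen (Tube n d R) := by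
  have h1 : IsOpen {x : E n | ‖x.2‖ < 1} := isOpen_lt (by fun_prop) continuous_const
  exact (rad_cont hd).isOpen_inter_preimage h1 isOpen_Iio

/-- A unit number which rotates `|z|^(1/d)` to a given root. -/
private theorem Cyl2_rot {w : ℂ} {ρ : ℝ} (hρ : 0 < ρ) (hw : ‖w‖ = ρ) :
    ∃ θ : ℂ, ‖θ‖ = 1 ∧ θ * ρ = w := by
  have h1 : (ρ : ℂ) ≠ 0 := by exact_mod_cast hρ.ne'
  refine ⟨w / ρ, ?_, ?_⟩
  · rw [norm_div, hw, Complex.norm_real, Real.norm_eq_abs, abs_of_pos hρ, div_self hρ.ne']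
  · field_simp

theorem cone_loc {d : ℝ} (hd : 0 < d) {x : E n} (hx : x.1 ≠ 0) (h2 : ‖x.2‖ < 1)
    (h : rad d x < 1) : ∃ U, x ∈ U ∧ (∀ x' ∈ U, x'.1 ≠ 0 ∧ ‖x'.2‖ < 1 ∧ rad d x' < 1) ∧
      LocNorm (fun x v : E n => √(cone d x v)) U := by
  have hdc : (d : ℂ) ≠ 0 := by exact_mod_cast hd.ne'
  obtain ⟨U, hU⟩ : ∃ U : Set (E n), U = {x' | ‖x'.1 - x.1‖ < ‖x.1‖} ∩
    ({x' | ‖x'.2‖ < 1} ∩ rad d ⁻¹' Iio 1) := ⟨_, rfl⟩
  have hUmem : ∀ x' ∈ U, x'.1 ≠ 0 ∧ ‖x'.2‖ < 1 ∧ rad d x' < 1 := by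
    intro x' hx'
    rw [hU] at hx'
    refine ⟨?_, hx'.2.1, hx'.2.2⟩
    intro h1
    have h3 : ‖x'.1 - x.1‖ < ‖x.1‖ := hx'.1
    rw [h1, zero_sub, norm_neg] at h3
    exact lt_irrefl _ h3
  have hUo : IsOpen U := by
    rw [hU]
    have h1 : IsOpen {x : E n | ‖x.2‖ < 1} := isOpen_lt (by fun_prop) continuous_const
    have h3 : Continuous fun x' : E n => ‖x'.1 - x.1‖ := by fun_prop
    exact (isOpen_lt h3 continuous_const).inter ((rad_cont hd).isOpen_inter_preimage h1 isOpen_Iio)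
  have hslit : ∀ x' ∈ U, x'.1 / x.1 ∈ Complex.slitPlane := by
    intro x' hx'
    rw [hU] at hx'
    left
    have h1 : ‖x'.1 / x.1 - 1‖ < 1 := by
      have h2 : x'.1 / x.1 - 1 = (x'.1 - x.1) / x.1 := by field_simp
      rw [h2, norm_div, div_lt_one (norm_pos_iff.2 hx)]
      exact hx'.1
    have h2 := Complex.abs_re_le_norm (x'.1 / x.1 - 1)
    rw [Complex.sub_re, Complex.one_re] at h2
    have h3 := (abs_lt.1 (h2.trans_lt h1)).1
    linarith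
  obtain ⟨g, hg⟩ : ∃ g : E n → ℂ, g = fun x' =>
    Complex.exp ((Complex.log x.1 + Complex.log (x'.1 / x.1)) / d) := ⟨_, rfl⟩
  have hgn : ∀ x' ∈ U, ‖g x'‖ = ‖x'.1‖ ^ (1 / d) := by
    intro x' hx'
    have h1 : Complex.exp (Complex.log x.1 + Complex.log (x'.1 / x.1)) = x'.1 := by
      rw [Complex.exp_add, Complex.exp_log hx,
        Complex.exp_log (Complex.slitPlane_ne_zero (hslit x' hx'))]
      field_simp
    have h3 : ‖x'.1‖ = Real.exp (Complex.log x.1 + Complex.log (x'.1 / x.1)).re := by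
      rw [← Complex.norm_exp, h1]
    rw [h3, ← Real.exp_mul, hg]
    simp only
    rw [Complex.norm_exp]
    congr 1
    have h4 : (Complex.log x.1 + Complex.log (x'.1 / x.1)) / (d : ℂ) =
        ((1 / d : ℝ) : ℂ) * (Complex.log x.1 + Complex.log (x'.1 / x.1)) := by
      push_cast
      ring
    rw [h4, Complex.re_ofReal_mul]
    ring
  have hg0 : ∀ x', g x' ≠ 0 := by
    intro x'
    rw [hg]
    exact Complex.exp_ne_zero _
  have hgd : ∀ x' ∈ U, DifferentiableAt ℂ g x' := by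
    intro x' hx'
    rw [hg]
    have h1 : DifferentiableAt ℂ (fun x' : E n => Complex.log (x'.1 / x.1)) x' :=
      DifferentiableAt.clog (by fun_prop) (hslit x' hx')
    have h3 : DifferentiableAt ℂ
        (fun x' : E n => (Complex.log x.1 + Complex.log (x'.1 / x.1)) / (d : ℂ)) x' := by
      have h4 := (h1.const_add (Complex.log x.1)).const_mul ((d : ℂ)⁻¹)
      refine h4.congr_of_eventuallyEq (Eventually.of_forall fun q => ?_)
      simp only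
      rw [div_eq_inv_mul]
    exact h3.cexp
  obtain ⟨L, hL⟩ : ∃ L : E n → E n, L = fun x' => (g x', x'.2) := ⟨_, rfl⟩
  obtain ⟨L', hL'⟩ : ∃ L' : E n × E n → E n, L' = fun q =>
    (g q.1 * (q.2.1 / (d * q.1.1)), q.2.2) := ⟨_, rfl⟩
  have hcone : ∀ x' ∈ U, ∀ v, cone d x' v = hyp (L x') (L' (x', v)) := by
    intro x' hx' v
    have hz := norm_pos_iff.2 (hUmem x' hx').1
    obtain ⟨θ, hθ, h3⟩ := Cyl2_rot (by positivity : 0 < ‖x'.1‖ ^ (1 / d)) (hgn x' hx')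
    have h4 := hyp_rot hθ (((‖x'.1‖ ^ (1 / d) : ℝ) : ℂ), x'.2)
      (((‖x'.1‖ ^ (1 / d) : ℝ) : ℂ) * (v.1 / (d * x'.1)), v.2)
    simp only at h4
    rw [← mul_assoc, h3] at h4
    rw [hL, hL']
    simp only
    rw [h4]
    rfl
  have hLm : MapsTo L U (Bl n) := by
    intro x' hx'
    obtain ⟨-, h3, h4⟩ := hUmem x' hx'
    have h5 := Cyl2_mem h3 h4
    have h6 : ‖((‖x'.1‖ ^ (1 / d) : ℝ) : ℂ)‖ ^ 2 + ‖x'.2‖ ^ 2 < 1 := h5
    rw [Complex.norm_real, Real.norm_eq_abs, abs_of_nonneg (by positivity)] at h6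
    show ‖(L x').1‖ ^ 2 + ‖(L x').2‖ ^ 2 < 1
    rw [hL]
    simp only
    rw [hgn x' hx']
    exact h6
  refine ⟨U, ?_, hUmem, ?_⟩
  · rw [hU]
    refine ⟨?_, h2, h⟩
    show ‖x.1 - x.1‖ < ‖x.1‖
    rw [sub_self, norm_zero]
    exact norm_pos_iff.2 hx
  · refine CC.LocNorm.pull (N := fun x v : E n => √(hyp x v)) (U := Bl n) (L := L) (L' := L')
      hyp_loc hUo ?_ ?_ hLm ?_ ?_ ?_
    · rw [hL]
      intro x' hx'
      exact ((hgd x' hx').prodMk differentiableAt_snd).differentiableWithinAt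
    · rw [hL']
      rintro ⟨x', v⟩ ⟨hx', -⟩
      have h1 := (hUmem x' hx').1
      refine DifferentiableAt.differentiableWithinAt ?_
      refine DifferentiableAt.prodMk ?_ (by fun_prop)
      refine DifferentiableAt.mul ?_ ?_
      · exact (hgd x' hx').comp (x', v) differentiableAt_fst
      · have h3 : (fun q : E n × E n => q.2.1 / ((d : ℂ) * q.1.1)) =
            fun q => q.2.1 * ((d : ℂ) * q.1.1)⁻¹ := by
          funext q
          rw [div_eq_mul_inv]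
        rw [h3]
        exact DifferentiableAt.mul (by fun_prop)
          (DifferentiableAt.inv (by fun_prop) (mul_ne_zero hdc h1))
    · intro x' hx' v
      show √(cone d x' v) = √(hyp (L x') (L' (x', v)))
      rw [hcone x' hx' v]
    · intro x' _ c v
      rw [hL']
      ext1
      · simp only [Prod.smul_fst, smul_eq_mul]
        ring
      · rfl
    · intro x' hx' v hv h1
      apply hv
      have h3 := (hUmem x' hx').1
      rw [hL'] at h1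
      simp only at h1
      have h4 : g x' * (v.1 / (d * x'.1)) = 0 := congrArg Prod.fst h1
      have h5 : v.2 = 0 := congrArg Prod.snd h1
      have h6 : v.1 / (d * x'.1) = 0 := (mul_eq_zero.1 h4).resolve_left (hg0 x')
      have h7 : v.1 = 0 := (div_eq_zero_iff.1 h6).resolve_right (mul_ne_zero hdc h3)
      ext1
      · exact h7
      · exact h5

end Pool.Agent.Nef6.KC
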