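import Pool.Agent.H.MP_6a1d6a_ag.KC.Base
import Pool.Agent.H.MP_6a1d6a_ag.CC.Def

/-!
MP_6a1d6a_ag, cone manifolds: auxiliary definitions for the proof. `⟨a, b⟩ = inner ℂ b a`.
-/

set_option autoImplicit false

open Set Filter Topology Metric
open scoped ContDiff Manifold

namespace Pool.Agent.Nef6.KC

export CC (PeakAt LocNorm Inv)

section access

/-! The fields of a cone manifold in the form in which they are used. -/

variable {n : ℕ} {Y : Type} [TopologicalSpace Y] [ChartedSpace (E n) Y] (X : ConeManifold n Y)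

theorem ConeManifold.reg_chart (φ : Chart n Y) (h : φ ∈ X.reg) :
    φ ∈ Charts (E n) Y ∧ φ.target ⊆ Bl n := X.reg_charts.chart φ h

theorem ConeManifold.reg_isom (φ : Chart n Y) (h : φ ∈ X.reg) (φ' : Chart n Y) (h' : φ' ∈ X.reg)
    (y : Y) (hy : y ∈ φ.source) (hy' : y ∈ φ'.source) (v : E n) :
    hyp (φ' y) (fderiv ℂ (φ' ∘ φ.symm) (φ y) v) = hyp (φ y) v :=
  X.reg_charts.isom φ h φ' h' y hy hy' v

theorem ConeManifold.d_pos (i : X.ι) : 0 < X.d i := (X.tub_charts i).d_pos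

theorem ConeManifold.R_pos (i : X.ι) : 0 < X.R i := (X.tub_charts i).R_pos

theorem ConeManifold.tub_chart (i : X.ι) (φ : Chart n Y) (h : φ ∈ X.tub i) :
    φ ∈ Charts (E n) Y ∧ φ.target ⊆ Tube n (X.d i) (X.R i) := (X.tub_charts i).chart φ h

theorem ConeManifold.tub_rad (i : X.ι) (φ : Chart n Y) (h : φ ∈ X.tub i) (φ' : Chart n Y)
    (h' : φ' ∈ X.tub i) (y : Y) (hy : y ∈ φ.source) (hy' : y ∈ φ'.source) :
    rad (X.d i) (φ' y) = rad (X.d i) (φ y) := (X.tub_charts i).rad_eq φ h φ' h' y hy hy'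

theorem ConeManifold.tub_isom (i : X.ι) (φ : Chart n Y) (h : φ ∈ X.tub i) (φ' : Chart n Y)
    (h' : φ' ∈ X.tub i) (y : Y) (hy : y ∈ φ.source) (hy' : y ∈ φ'.source) (h0 : (φ y).1 ≠ 0)
    (v : E n) : cone (X.d i) (φ' y) (fderiv ℂ (φ' ∘ φ.symm) (φ y) v) = cone (X.d i) (φ y) v :=
  (X.tub_charts i).isom φ h φ' h' y hy hy' h0 v

theorem ConeManifold.reg_tub (i : X.ι) (φ : Chart n Y) (h : φ ∈ X.reg) (φ' : Chart n Y)
    (h' : φ' ∈ X.tub i) (y : Y) (hy : y ∈ φ.source) (hy' : y ∈ φ'.source) :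
    (φ' y).1 ≠ 0 ∧ ∀ v, cone (X.d i) (φ' y) (fderiv ℂ (φ' ∘ φ.symm) (φ y) v) = hyp (φ y) v :=
  (X.tub_charts i).reg_isom φ h φ' h' y hy hy'

theorem ConeManifold.disj' (i j : X.ι) (φ : Chart n Y) (h : φ ∈ X.tub i) (φ' : Chart n Y)
    (h' : φ' ∈ X.tub j) (y : Y) (hy : y ∈ φ.source) (hy' : y ∈ φ'.source) : i = j := by
  by_contra hij
  exact Set.disjoint_left.1 (X.disj i j hij) ⟨φ, h, hy, mem_univ _⟩ ⟨φ', h', hy', mem_univ _⟩

theorem ConeManifold.closed (i : X.ι) (c : ℝ) (hc : c < Real.tanh (X.R i / 2) ^ 2) :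
    IsClosed {y | ∃ φ ∈ X.tub i, y ∈ φ.source ∧ rad (X.d i) (φ y) ≤ c} :=
  (X.tub_charts i).closed c hc

theorem ConeManifold.cover' (y : Y) :
    (∃ φ ∈ X.reg, y ∈ φ.source) ∨ ∃ i, ∃ φ ∈ X.tub i, y ∈ φ.source := by
  rcases X.cover y with ⟨φ, h, hy, -⟩ | ⟨i, φ, h, hy, -⟩
  · exact Or.inl ⟨φ, h, hy⟩
  · exact Or.inr ⟨i, φ, h, hy⟩

end access

section ball

variable {F : Type} [NormedAddCommGroup F] [InnerProductSpace ℂ F]

/-- The metric of the unit ball (without the factor 4). -/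
noncomputable def hb (y w : F) : ℝ :=
  ‖w‖ ^ 2 / (1 - ‖y‖ ^ 2) + ‖(inner ℂ y w : ℂ)‖ ^ 2 / (1 - ‖y‖ ^ 2) ^ 2

/-- `1 - ⟨y, a⟩` -/
noncomputable def del (a y : F) : ℂ := 1 - inner ℂ a y

/-- `(1 - |a|²)^(1/2)` -/
noncomputable def sa (a : F) : ℝ := √(1 - ‖a‖ ^ 2)

/-- The automorphism of the ball which moves `a` to `0`. -/
noncomputable def aut (a y : F) : F :=
  (del a y)⁻¹ • ((sa a : ℂ) • y + (inner ℂ a y / (1 + sa a) - 1) • a)

/-- Its derivative. -/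
noncomputable def aut' (a y w : F) : F :=
  (del a y)⁻¹ • ((sa a : ℂ) • w + (inner ℂ a w / (1 + sa a)) • a) +
    (inner ℂ a w / (del a y) ^ 2) • ((sa a : ℂ) • y + (inner ℂ a y / (1 + sa a) - 1) • a)

end ball

/-- The radius `(d-1)/(d+1)` at which the metrics are glued, for `d > 1`. -/
noncomputable def ss (d : ℝ) : ℝ := (d - 1) / (d + 1)

noncomputable def cA (d : ℝ) : ℝ := (d + 1) ^ 2 / (d ^ 2 * ss d ^ (d - 1))

noncomputable def cB (d : ℝ) : ℝ := (d + 1) ^ 2 / (4 * d)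

/-- The factor in the direction of the fibres. -/
noncomputable def al (d s : ℝ) : ℝ := cA d * d ^ 2 / 4 * s ^ (d - 1) * (1 - s) ^ 2

/-- The factor in the direction of the divisor. -/
noncomputable def be (d s : ℝ) : ℝ := (1 - s) * (cB d + cA d * d / 4 * s ^ d)

/-- The factor in the direction of the fibres, general constants. -/
noncomputable def alA (d A s : ℝ) : ℝ := A * d ^ 2 / 4 * s ^ (d - 1) * (1 - s) ^ 2

/-- The factor in the direction of the divisor, general constants. -/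
noncomputable def beA (d A B s : ℝ) : ℝ := (1 - s) * (B / 4 + A * d / 4 * s ^ d)

/-- Constants `A`, `B` and radii `σ < s₁` for the gluing. -/
structure GlueData (d A B σ s₁ : ℝ) : Prop where
  hd : 0 < d
  hA : 0 < A
  hB : 0 < B
  hσ : 0 < σ
  hs : σ < s₁
  inn : ∃ s₂, σ < s₂ ∧ ∀ s, σ ≤ s → s ≤ s₂ → 1 ≤ alA d A s ∧ 1 ≤ beA d A B s
  out : ∀ s, s₁ ≤ s → s < 1 → alA d A s ≤ 1 ∧ beA d A B s ≤ 1

section tube

variable {n : ℕ}

/-- `v_z + d z ⟨v_y, y⟩ / (1 - |y|²)` -/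
noncomputable def Dz (d : ℝ) (x v : E n) : ℂ :=
  v.1 + d * x.1 * inner ℂ x.2 v.2 / ((1 - ‖x.2‖ ^ 2 : ℝ) : ℂ)

/-- The cone metric, decomposed. -/
noncomputable def hz (d : ℝ) (x v : E n) : ℝ :=
  4 * (rad d x * ‖Dz d x v‖ ^ 2 / (d ^ 2 * ‖x.1‖ ^ 2 * (1 - rad d x) ^ 2) +
    hb x.2 v.2 / (1 - rad d x))

/-- The metric near `z = 0`. -/
noncomputable def h1 (d A B : ℝ) (x v : E n) : ℝ :=
  A * ((‖Dz d x v‖ ^ 2 + d * ‖x.1‖ ^ 2 * hb x.2 v.2) / (1 - ‖x.2‖ ^ 2) ^ d) + B * hb x.2 v.2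

/-- The glued norm. -/
noncomputable def Nz (d A B σ : ℝ) (x v : E n) : ℝ :=
  if σ < rad d x then √(max (cone d x v) (h1 d A B x v)) else √(h1 d A B x v)

end tube

end Pool.Agent.Nef6.KC
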