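import Pool.Agent.H.MP_6a1d6a_ag.KC.Def

/-!
MP_6a1d6a_ag/KC, module Num: the two factors `al` and `be`.

`s⋆ = ss d = (d-1)/(d+1)`, `1 - s⋆ = 2/(d+1)`. `al d s = (d+1)²/(4 s⋆^(d-1)) s^(d-1) (1-s)²`, so `al = 1` at `s⋆`; its derivative is
`al ((d-1)/s - 2/(1-s))`, negative for `s⋆ < s < 1`. `cA d · d/4 · s⋆^d = (d+1)² s⋆/(4d)`, so
`be d s⋆ = (2/(d+1)) ((d+1)²/(4d)) (1 + s⋆) = 1`. `be' = - cB - cA d/4 s^d + (1-s) cA d²/4 s^(d-1)`, `be' (s⋆) = 0`,
`be'' = (cA d²/4) s^(d-2) ((d-1)(1-s) - 2 s) < 0` for `s > s⋆`; so both functions are strictly decreasing on `[s⋆, 1]`.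
(Without the second derivative: `be' (s) < 0` for `s > s⋆` iff `s^(d-1) (d (1-s) - s) < 4 cB/(cA d)= ` the value of the left side at
`s⋆`; the derivative of the left side is `d s^(d-2) ((d-1)(1-s) - 2s)`.)
`num_in`: continuity at `s⋆` and `k > 1`. `num_out`: take `k = min (1/al d s₁) (1/be d s₁)`; if `al d s₁ ` or `be` is tiny any larger
constant is allowed too, but both are positive. See `CC/Num.lean`.
`deep_lt`: `tanh² (R/2) = (cosh R - 1)/(cosh R + 1)`.
-/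

set_option autoImplicit false

open Set Filter Topology Metric

namespace Pool.Agent.Nef6.KC

theorem ss_pos {d : ℝ} (hd : 1 < d) : 0 < ss d := by
  unfold ss
  exact div_pos (by linarith) (by linarith)

theorem ss_lt {d : ℝ} (hd : 1 < d) : ss d < 1 := by
  unfold ss
  rw [div_lt_one (by linarith)]
  linarith

theorem cA_pos {d : ℝ} (hd : 1 < d) : 0 < cA d := by
  unfold cA
  have h1 := Real.rpow_pos_of_pos (ss_pos hd) (d - 1)
  positivity

theorem cB_pos {d : ℝ} (hd : 1 < d) : 0 < cB d := by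
  unfold cB
  positivity

private lemma Num_ss {d : ℝ} (hd : 1 < d) : (d + 1) * ss d = d - 1 := by
  unfold ss
  rw [mul_div_cancel₀]
  linarith

private lemma Num_gt {d s : ℝ} (hd : 1 < d) (h : ss d < s) : d - 1 < (d + 1) * s := by
  have h1 := mul_lt_mul_of_pos_left h (show 0 < d + 1 by linarith)
  rwa [Num_ss hd] at h1

private lemma Num_pow {s : ℝ} (hs : 0 < s) (y : ℝ) : s ^ y = s ^ (y - 1) * s := by
  rw [← Real.rpow_add_one hs.ne']
  congr 1
  ring

private lemma Num_cA {d : ℝ} (hd : 1 < d) : cA d * ss d ^ (d - 1) = (d + 1) ^ 2 / d ^ 2 := by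
  unfold cA
  have h1 := (Real.rpow_pos_of_pos (ss_pos hd) (d - 1)).ne'
  have h2 : d ≠ 0 := by linarith
  field_simp

private lemma Num_al_one {d : ℝ} (hd : 1 < d) : al d (ss d) = 1 := by
  unfold al
  have h1 : cA d * d ^ 2 / 4 * ss d ^ (d - 1) * (1 - ss d) ^ 2 =
      (cA d * ss d ^ (d - 1)) * (d ^ 2 / 4 * (1 - ss d) ^ 2) := by ring
  rw [h1, Num_cA hd]
  have h2 : 1 - ss d = 2 / (d + 1) := by
    unfold ss
    have : d + 1 ≠ 0 := by linarith
    field_simp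
    ring
  rw [h2]
  have h3 : d ≠ 0 := by linarith
  have h4 : d + 1 ≠ 0 := by linarith
  field_simp
  norm_num

private lemma Num_be_one {d : ℝ} (hd : 1 < d) : be d (ss d) = 1 := by
  unfold be cB
  have h0 := Num_pow (ss_pos hd) d
  have h1 : cA d * d / 4 * ss d ^ d = (cA d * ss d ^ (d - 1)) * (d / 4 * ss d) := by
    rw [h0]
    ring
  rw [h1, Num_cA hd]
  unfold ss
  have h3 : d ≠ 0 := by linarith
  have h4 : d + 1 ≠ 0 := by linarith
  field_simp
  ring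

private lemma Num_cont {d : ℝ} (hd : 1 < d) : Continuous (al d) ∧ Continuous (be d) := by
  constructor
  · have h1 : Continuous fun s : ℝ => s ^ (d - 1) :=
      Real.continuous_rpow_const (by linarith)
    unfold al
    fun_prop
  · have h1 : Continuous fun s : ℝ => s ^ d := Real.continuous_rpow_const (by linarith)
    unfold be
    fun_prop

theorem num_in {d k : ℝ} (hd : 1 < d) (hk : 1 < k) : ∃ s₂, ss d < s₂ ∧ s₂ < 1 ∧
    ∀ s, ss d ≤ s → s ≤ s₂ → 1 ≤ k * al d s ∧ 1 ≤ k * be d s := by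
  obtain ⟨c1, c2⟩ := Num_cont hd
  have e1 : ∀ᶠ s in 𝓝 (ss d), 1 < k * al d s := by
    refine (continuous_const.mul c1).continuousAt.eventually (lt_mem_nhds ?_)
    change 1 < k * al d (ss d)
    rw [Num_al_one hd, mul_one]
    exact hk
  have e2 : ∀ᶠ s in 𝓝 (ss d), 1 < k * be d s := by
    refine (continuous_const.mul c2).continuousAt.eventually (lt_mem_nhds ?_)
    change 1 < k * be d (ss d)
    rw [Num_be_one hd, mul_one]
    exact hk
  obtain ⟨ε, hε, hb⟩ := Metric.eventually_nhds_iff.1 (e1.and e2)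
  have h0 := ss_lt hd
  refine ⟨min ((ss d + 1) / 2) (ss d + ε / 2), lt_min (by linarith) (by linarith),
    (min_le_left _ _).trans_lt (by linarith), fun s hs hs2 => ?_⟩
  have h2 : s ≤ ss d + ε / 2 := hs2.trans (min_le_right _ _)
  have := hb (y := s) (by
    rw [Real.dist_eq, abs_lt]
    constructor <;> linarith)
  exact ⟨this.1.le, this.2.le⟩

private lemma Num_al_anti {d : ℝ} (hd : 1 < d) : StrictAntiOn (al d) (Icc (ss d) 1) := by
  refine strictAntiOn_of_deriv_neg (convex_Icc _ _) (Num_cont hd).1.continuousOn fun s hs => ?_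
  rw [interior_Icc] at hs
  obtain ⟨hs1, hs2⟩ := hs
  have hs0 : 0 < s := (ss_pos hd).trans hs1
  have h1 : HasDerivAt (fun s : ℝ => s ^ (d - 1)) ((d - 1) * s ^ (d - 1 - 1)) s :=
    Real.hasDerivAt_rpow_const (Or.inl hs0.ne')
  have h2 : HasDerivAt (fun s : ℝ => (1 - s) ^ 2) ((2 : ℕ) * (1 - s) ^ (2 - 1) * (0 - 1)) s :=
    ((hasDerivAt_const s (1 : ℝ)).sub (hasDerivAt_id s)).pow 2
  have h3 := (h1.const_mul (cA d * d ^ 2 / 4)).mul h2
  have h4 : HasDerivAt (al d) (cA d * d ^ 2 / 4 * ((d - 1) * s ^ (d - 1 - 1)) * (1 - s) ^ 2 +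
      cA d * d ^ 2 / 4 * s ^ (d - 1) * ((2 : ℕ) * (1 - s) ^ (2 - 1) * (0 - 1))) s := h3
  rw [h4.deriv, Num_pow hs0 (d - 1)]
  have h5 := Real.rpow_pos_of_pos hs0 (d - 1 - 1)
  have h6 := cA_pos hd
  have h7 : 0 < 1 - s := by linarith
  have h8 := Num_gt hd hs1
  have h9 : cA d * d ^ 2 / 4 * ((d - 1) * s ^ (d - 1 - 1)) * (1 - s) ^ 2 +
      cA d * d ^ 2 / 4 * (s ^ (d - 1 - 1) * s) * ((2 : ℕ) * (1 - s) ^ (2 - 1) * (0 - 1)) =
      -(cA d * d ^ 2 / 4 * s ^ (d - 1 - 1) * (1 - s) * ((d + 1) * s - (d - 1))) := by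
    push_cast
    norm_num
    ring
  rw [h9, neg_lt_zero]
  have h10 : 0 < (d + 1) * s - (d - 1) := by linarith
  positivity

private lemma Num_G_anti {d : ℝ} (hd : 1 < d) :
    StrictAntiOn (fun s : ℝ => s ^ (d - 1) * (d - (d + 1) * s)) (Icc (ss d) 1) := by
  have hc : Continuous fun s : ℝ => s ^ (d - 1) * (d - (d + 1) * s) := by
    have h1 : Continuous fun s : ℝ => s ^ (d - 1) :=
      Real.continuous_rpow_const (by linarith)
    fun_prop
  refine strictAntiOn_of_deriv_neg (convex_Icc _ _) hc.continuousOn fun s hs => ?_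
  rw [interior_Icc] at hs
  obtain ⟨hs1, hs2⟩ := hs
  have hs0 : 0 < s := (ss_pos hd).trans hs1
  have h1 : HasDerivAt (fun s : ℝ => s ^ (d - 1)) ((d - 1) * s ^ (d - 1 - 1)) s :=
    Real.hasDerivAt_rpow_const (Or.inl hs0.ne')
  have h2 : HasDerivAt (fun s : ℝ => d - (d + 1) * s) (0 - (d + 1) * 1) s :=
    (hasDerivAt_const s d).sub ((hasDerivAt_id s).const_mul (d + 1))
  have h3 : HasDerivAt (fun s : ℝ => s ^ (d - 1) * (d - (d + 1) * s))
      ((d - 1) * s ^ (d - 1 - 1) * (d - (d + 1) * s) + s ^ (d - 1) * (0 - (d + 1) * 1)) s :=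
    h1.mul h2
  rw [h3.deriv, Num_pow hs0 (d - 1)]
  have h5 := Real.rpow_pos_of_pos hs0 (d - 1 - 1)
  have h8 := Num_gt hd hs1
  have h9 : (d - 1) * s ^ (d - 1 - 1) * (d - (d + 1) * s) +
      s ^ (d - 1 - 1) * s * (0 - (d + 1) * 1) =
      -(d * s ^ (d - 1 - 1) * ((d + 1) * s - (d - 1))) := by
    ring
  rw [h9, neg_lt_zero]
  have h10 : 0 < (d + 1) * s - (d - 1) := by linarith
  positivity

private lemma Num_be_anti {d : ℝ} (hd : 1 < d) : StrictAntiOn (be d) (Icc (ss d) 1) := by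
  refine strictAntiOn_of_deriv_neg (convex_Icc _ _) (Num_cont hd).2.continuousOn fun s hs => ?_
  rw [interior_Icc] at hs
  obtain ⟨hs1, hs2⟩ := hs
  have hs0 : 0 < s := (ss_pos hd).trans hs1
  have h1 : HasDerivAt (fun s : ℝ => s ^ d) (d * s ^ (d - 1)) s :=
    Real.hasDerivAt_rpow_const (Or.inl hs0.ne')
  have h2 : HasDerivAt (fun s : ℝ => 1 - s) (0 - 1) s :=
    (hasDerivAt_const s (1 : ℝ)).sub (hasDerivAt_id s)
  have h3 : HasDerivAt (fun s : ℝ => cB d + cA d * d / 4 * s ^ d)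
      (0 + cA d * d / 4 * (d * s ^ (d - 1))) s :=
    (hasDerivAt_const s (cB d)).add (h1.const_mul (cA d * d / 4))
  have h4 : HasDerivAt (be d) ((0 - 1) * (cB d + cA d * d / 4 * s ^ d) +
      (1 - s) * (0 + cA d * d / 4 * (d * s ^ (d - 1)))) s := h2.mul h3
  rw [h4.deriv]
  have hG := Num_G_anti hd (left_mem_Icc.2 (ss_lt hd).le) ⟨hs1.le, hs2.le⟩ hs1
  simp only at hG
  have hS : ss d ^ (d - 1) * (d - (d + 1) * ss d) = ss d ^ (d - 1) := by
    rw [Num_ss hd]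
    ring
  rw [hS] at hG
  have h6 := cA_pos hd
  have hC : 0 < cA d * d / 4 := by positivity
  have h7 := mul_lt_mul_of_pos_left hG hC
  have h8 : cA d * d / 4 * ss d ^ (d - 1) = cB d := by
    have : cA d * d / 4 * ss d ^ (d - 1) = (cA d * ss d ^ (d - 1)) * (d / 4) := by ring
    rw [this, Num_cA hd]
    unfold cB
    have h3 : d ≠ 0 := by linarith
    field_simp
  rw [h8] at h7
  have h9 : (0 - 1) * (cB d + cA d * d / 4 * s ^ d) +
      (1 - s) * (0 + cA d * d / 4 * (d * s ^ (d - 1))) =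
      cA d * d / 4 * (s ^ (d - 1) * (d - (d + 1) * s)) - cB d := by
    rw [Num_pow hs0 d]
    ring
  rw [h9]
  linarith

theorem num_out {d s₁ : ℝ} (hd : 1 < d) (h0 : ss d < s₁) (h1 : s₁ < 1) : ∃ k, 1 < k ∧
    ∀ s, s₁ ≤ s → s < 1 → k * al d s ≤ 1 ∧ k * be d s ≤ 1 := by
  have hs0 : 0 < s₁ := (ss_pos hd).trans h0
  have hA1 : al d s₁ < 1 := by
    have := Num_al_anti hd (left_mem_Icc.2 (ss_lt hd).le) ⟨h0.le, h1.le⟩ h0
    rwa [Num_al_one hd] at this
  have hB1 : be d s₁ < 1 := by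
    have := Num_be_anti hd (left_mem_Icc.2 (ss_lt hd).le) ⟨h0.le, h1.le⟩ h0
    rwa [Num_be_one hd] at this
  have hcA := cA_pos hd
  have hcB := cB_pos hd
  have h1s : 0 < 1 - s₁ := by linarith
  have hA0 : 0 < al d s₁ := by
    unfold al
    have := Real.rpow_pos_of_pos hs0 (d - 1)
    positivity
  have hB0 : 0 < be d s₁ := by
    unfold be
    have := Real.rpow_pos_of_pos hs0 d
    positivity
  refine ⟨min (1 / al d s₁) (1 / be d s₁), ?_, ?_⟩
  · refine lt_min ?_ ?_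
    · rw [lt_div_iff₀ hA0]
      linarith
    · rw [lt_div_iff₀ hB0]
      linarith
  · intro s hs hs1
    have hm : s ∈ Icc (ss d) 1 := ⟨h0.le.trans hs, hs1.le⟩
    have hm1 : s₁ ∈ Icc (ss d) 1 := ⟨h0.le, h1.le⟩
    have hA := (Num_al_anti hd).antitoneOn hm1 hm hs
    have hB := (Num_be_anti hd).antitoneOn hm1 hm hs
    have hs00 : 0 < s := hs0.trans_le hs
    have h1s' : 0 < 1 - s := by linarith
    have hA0' : 0 < al d s := by
      unfold al
      have := Real.rpow_pos_of_pos hs00 (d - 1)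
      positivity
    have hB0' : 0 < be d s := by
      unfold be
      have := Real.rpow_pos_of_pos hs00 d
      positivity
    constructor
    · calc _ ≤ 1 / al d s₁ * al d s := mul_le_mul_of_nonneg_right (min_le_left _ _) hA0'.le
        _ ≤ 1 / al d s₁ * al d s₁ := mul_le_mul_of_nonneg_left hA (by positivity)
        _ = 1 := by field_simp
    · calc _ ≤ 1 / be d s₁ * be d s := mul_le_mul_of_nonneg_right (min_le_right _ _) hB0'.le
        _ ≤ 1 / be d s₁ * be d s₁ := mul_le_mul_of_nonneg_left hB (by positivity)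
        _ = 1 := by field_simp

theorem tanh_lt (R : ℝ) : Real.tanh R ^ 2 < 1 := by
  have h := Real.cosh_pos R
  have h1 := Real.cosh_sq R
  rw [Real.tanh_eq_sinh_div_cosh, div_pow, div_lt_one (by positivity)]
  linarith

theorem deep_lt {d R : ℝ} (hd : 0 < d) (h : d < Real.cosh R) : ss d < Real.tanh (R / 2) ^ 2 := by
  have hc := Real.cosh_pos (R / 2)
  have h1 := Real.cosh_sq (R / 2)
  have h2 := Real.cosh_two_mul (R / 2)
  have h3 : 2 * (R / 2) = R := by ring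
  rw [h3] at h2
  rw [Real.tanh_eq_sinh_div_cosh, div_pow]
  unfold ss
  rw [div_lt_div_iff₀ (by linarith) (by positivity), h1]
  rw [h2, h1] at h
  nlinarith

private lemma Num_case1 {d b : ℝ} (hd : 1 < d) (h0 : ss d < b) (h1 : b < 1) :
    ∃ A B σ s₁, GlueData d A B σ s₁ ∧ s₁ < b := by
  obtain ⟨k, hk, hk2⟩ := num_out (s₁ := (ss d + b) / 2) hd (by linarith) (by linarith)
  obtain ⟨s₂, h2, -, h3⟩ := num_in hd hk
  have hcA := cA_pos hd
  have hcB := cB_pos hd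
  have e1 : ∀ s, alA d (k * cA d) s = k * al d s := by
    intro s
    unfold alA al
    ring
  have e2 : ∀ s, beA d (k * cA d) (4 * (k * cB d)) s = k * be d s := by
    intro s
    unfold beA be
    ring
  refine ⟨k * cA d, 4 * (k * cB d), ss d, (ss d + b) / 2, ⟨by linarith, by positivity, by positivity,
    ss_pos hd, by linarith, ⟨s₂, h2, ?_⟩, ?_⟩, by linarith⟩
  · intro s ha hb
    rw [e1, e2]
    exact h3 s ha hb
  · intro s ha hb
    rw [e1, e2]
    exact hk2 s ha hb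

private lemma Num_case2 {b : ℝ} (h0 : 0 < b) (h1 : b < 1) :
    ∃ A B σ s₁, GlueData 1 A B σ s₁ ∧ s₁ < b := by
  obtain ⟨s₁, hs, hs1, hsb⟩ : ∃ s₁ : ℝ, 0 < s₁ ∧ s₁ < 1 ∧ s₁ < b :=
    ⟨b / 2, by linarith, by linarith, by linarith⟩
  have hp : 0 < 1 - s₁ ^ 2 := by nlinarith
  obtain ⟨k, hk, hk1⟩ : ∃ k : ℝ, 0 < k ∧ k * (1 - s₁ ^ 2) = 1 :=
    ⟨1 / (1 - s₁ ^ 2), by positivity, by field_simp⟩
  have e1 : ∀ s, alA 1 (4 * k) s = k * (1 - s) ^ 2 := by
    intro s
    unfold alA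
    rw [sub_self, Real.rpow_zero]
    ring
  have e2 : ∀ s, beA 1 (4 * k) (4 * k) s = k * (1 - s ^ 2) := by
    intro s
    unfold beA
    rw [Real.rpow_one]
    ring
  refine ⟨4 * k, 4 * k, s₁ ^ 2 / 4, s₁, ⟨one_pos, by positivity, by positivity, by positivity,
    by nlinarith, ⟨s₁ ^ 2 / 2, by nlinarith [sq_nonneg s₁, pow_pos hs 2], ?_⟩, ?_⟩, hsb⟩
  · intro s ha hb
    have hs0 : 0 < s := lt_of_lt_of_le (by positivity) ha
    have h3 : 1 - s₁ ^ 2 ≤ (1 - s) ^ 2 := by nlinarith [sq_nonneg s]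
    have h4 : 1 - s₁ ^ 2 ≤ 1 - s ^ 2 := by nlinarith
    rw [e1, e2]
    constructor
    · calc (1 : ℝ) = k * (1 - s₁ ^ 2) := hk1.symm
        _ ≤ _ := mul_le_mul_of_nonneg_left h3 hk.le
    · calc (1 : ℝ) = k * (1 - s₁ ^ 2) := hk1.symm
        _ ≤ _ := mul_le_mul_of_nonneg_left h4 hk.le
  · intro s ha hb
    have h4 : 1 - s ^ 2 ≤ 1 - s₁ ^ 2 := by nlinarith
    have h3 : (1 - s) ^ 2 ≤ 1 - s₁ ^ 2 := by nlinarith
    rw [e1, e2]
    constructor
    · calc k * (1 - s) ^ 2 ≤ k * (1 - s₁ ^ 2) := mul_le_mul_of_nonneg_left h3 hk.le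
        _ = 1 := hk1
    · calc k * (1 - s ^ 2) ≤ k * (1 - s₁ ^ 2) := mul_le_mul_of_nonneg_left h4 hk.le
        _ = 1 := hk1

private lemma Num_case3 {d b : ℝ} (hd : 0 < d) (hd1 : d < 1) (h0 : 0 < b) (h1 : b < 1) :
    ∃ A B σ s₁, GlueData d A B σ s₁ ∧ s₁ < b := by
  obtain ⟨s₁, hs, hs1, hsb⟩ : ∃ s₁ : ℝ, 0 < s₁ ∧ s₁ < 1 ∧ s₁ < b :=
    ⟨b / 2, by linarith, by linarith, by linarith⟩
  have hr := Real.rpow_pos_of_pos hs (1 - d)
  obtain ⟨A, hA, hA1, hA2⟩ : ∃ A : ℝ, 0 < A ∧ A * d / 4 ≤ s₁ / 2 ∧ A * d ^ 2 / 4 ≤ s₁ ^ (1 - d) := by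
    refine ⟨min (2 * s₁ / d) (4 * s₁ ^ (1 - d) / d ^ 2), lt_min (by positivity) (by positivity),
      ?_, ?_⟩
    · calc min (2 * s₁ / d) (4 * s₁ ^ (1 - d) / d ^ 2) * d / 4 ≤ 2 * s₁ / d * d / 4 := by
            gcongr
            exact min_le_left _ _
        _ = s₁ / 2 := by
            field_simp
            ring
    · calc min (2 * s₁ / d) (4 * s₁ ^ (1 - d) / d ^ 2) * d ^ 2 / 4 ≤
          4 * s₁ ^ (1 - d) / d ^ 2 * d ^ 2 / 4 := by
            gcongr
            exact min_le_right _ _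
        _ = s₁ ^ (1 - d) := by
            field_simp
  have hq : 0 < A * d ^ 2 / 16 := by positivity
  obtain ⟨s₂, h2, h2a, h2b, h2c⟩ : ∃ s₂ : ℝ, 0 < s₂ ∧ s₂ ≤ s₁ / 4 ∧ s₂ ≤ 1 / 2 ∧
      s₂ ≤ (A * d ^ 2 / 16) ^ (1 / (1 - d)) := by
    refine ⟨min (s₁ / 4) (min (1 / 2) ((A * d ^ 2 / 16) ^ (1 / (1 - d)))),
      lt_min (by positivity) (lt_min (by positivity) (Real.rpow_pos_of_pos hq _)),
      min_le_left _ _, (min_le_right _ _).trans (min_le_left _ _),
      (min_le_right _ _).trans (min_le_right _ _)⟩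
  refine ⟨A, 4 * (1 + s₁ / 2), s₂ / 2, s₁, ⟨hd, hA, by positivity, by positivity,
    by linarith, ⟨s₂, by linarith, ?_⟩, ?_⟩, hsb⟩
  · intro s ha hb
    have hs0 : 0 < s := lt_of_lt_of_le (by positivity) ha
    constructor
    · have h3 : s ^ (1 - d) ≤ A * d ^ 2 / 16 := by
        have h4 : s ^ (1 - d) ≤ ((A * d ^ 2 / 16) ^ (1 / (1 - d))) ^ (1 - d) :=
          Real.rpow_le_rpow hs0.le (hb.trans h2c) (by linarith)
        rw [← Real.rpow_mul hq.le, one_div_mul_cancel (by linarith), Real.rpow_one] at h4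
        exact h4
      have h4 : 1 / 4 ≤ (1 - s) ^ 2 := by nlinarith
      have h5 : s ^ (d - 1) * s ^ (1 - d) = 1 := by
        rw [← Real.rpow_add hs0]
        have : d - 1 + (1 - d) = 0 := by ring
        rw [this, Real.rpow_zero]
      have h6 := Real.rpow_pos_of_pos hs0 (d - 1)
      unfold alA
      calc (1 : ℝ) = 4 * (s ^ (d - 1) * s ^ (1 - d)) * (1 / 4) := by rw [h5]; norm_num
        _ ≤ 4 * (s ^ (d - 1) * (A * d ^ 2 / 16)) * (1 - s) ^ 2 := by gcongr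
        _ = A * d ^ 2 / 4 * s ^ (d - 1) * (1 - s) ^ 2 := by ring
    · have h6 := Real.rpow_pos_of_pos hs0 d
      unfold beA
      have h7 : 0 ≤ A * d / 4 * s ^ d := by positivity
      have h8 : 0 < 1 - s := by linarith
      have h9 : 1 ≤ (1 - s) * (1 + s₁ / 2) := by nlinarith
      have h10 : 0 ≤ (1 - s) * (A * d / 4 * s ^ d) := mul_nonneg h8.le h7
      have h11 : (1 - s) * (4 * (1 + s₁ / 2) / 4 + A * d / 4 * s ^ d) =
          (1 - s) * (1 + s₁ / 2) + (1 - s) * (A * d / 4 * s ^ d) := by ring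
      rw [h11]
      linarith
  · intro s ha hb
    have hs0 : 0 < s := hs.trans_le ha
    constructor
    · have h3 : s ^ (d - 1) ≤ s₁ ^ (d - 1) :=
        Real.rpow_le_rpow_of_nonpos hs ha (by linarith)
      have h4 : (1 - s) ^ 2 ≤ 1 := by nlinarith
      have h5 : s₁ ^ (1 - d) * s₁ ^ (d - 1) = 1 := by
        rw [← Real.rpow_add hs]
        have : 1 - d + (d - 1) = 0 := by ring
        rw [this, Real.rpow_zero]
      have h6 := Real.rpow_pos_of_pos hs0 (d - 1)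
      have h7 := Real.rpow_pos_of_pos hs (d - 1)
      unfold alA
      calc A * d ^ 2 / 4 * s ^ (d - 1) * (1 - s) ^ 2 ≤ s₁ ^ (1 - d) * s₁ ^ (d - 1) * 1 := by
            gcongr
        _ = 1 := by rw [h5, mul_one]
    · have h3 : s ^ d ≤ 1 := Real.rpow_le_one hs0.le hb.le hd.le
      have h4 : A * d / 4 * s ^ d ≤ s₁ / 2 := by
        calc A * d / 4 * s ^ d ≤ A * d / 4 * 1 := by gcongr
          _ ≤ s₁ / 2 := by linarith
      unfold beA
      have h5 : 0 < 1 - s := by linarith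
      calc (1 - s) * (4 * (1 + s₁ / 2) / 4 + A * d / 4 * s ^ d) ≤ (1 - s₁) * (1 + s₁) := by
            refine mul_le_mul (by linarith) (by linarith) (by positivity) (by linarith)
        _ ≤ 1 := by nlinarith

theorem num_all {d R : ℝ} (hd : 0 < d) (hR : 0 < R) (h : d < Real.cosh R) :
    ∃ A B σ s₁, GlueData d A B σ s₁ ∧ s₁ < Real.tanh (R / 2) ^ 2 := by
  have h1 := tanh_lt (R / 2)
  have h2 : 0 < Real.tanh (R / 2) ^ 2 := by
    have : 0 < Real.tanh (R / 2) := by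
      rw [Real.tanh_eq_sinh_div_cosh]
      exact div_pos (Real.sinh_pos_iff.2 (by linarith)) (Real.cosh_pos _)
    positivity
  rcases lt_trichotomy d 1 with h3 | h3 | h3
  · exact Num_case3 hd h3 h2 h1
  · rw [h3]
    exact Num_case2 h2 h1
  · exact Num_case1 h3 (deep_lt hd h) h1

end Pool.Agent.Nef6.KC
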