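import Pool.Agent.H.MP_6a1d6a_ag.KC.Cyl1
import Pool.Agent.H.MP_6a1d6a_ag.KC.Cyl2
import Pool.Agent.H.MP_6a1d6a_ag.KC.Num

/-!
MP_6a1d6a_ag/KC, module Glue: the glued norm `Nz`. Follow `CC/Glue.lean`.

For `x.1 ≠ 0`, `s = rad d x`, `s^d = |z|²/(1 - ‖y‖²)^d` (`rad_rpow`), `0 < s < 1`, with `P1 = 4 s |Dz|²/(d² |z|² (1-s)²)`,
`P2 = 4 hb/(1-s)` (`hz = P1 + P2`): `h1 = k al P1 + k be P2` (`s^d = s^(d-1) s`). Checked numerically. `hz_eq`: `hz = cone`.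
* `Nz_out`: both factors `≤ 1`, so `h1 ≤ hz = cone`; `rad d x ≥ s₁ > ss d`.
* `Nz_loc`: if `σ < rad d x`: `U = W ∩ U' ∩ {σ < rad}`, `U'` from `cone_loc`, `LocNorm.max`, `√ max = max √`. Else `s₂` from
  `num_in`, `U = W ∩ {rad < s₂}` (open: `rad_cont`); there `Nz = √ h1`: if `σ < rad` then both factors are `≥ 1` and
  `h1 ≥ cone`. `LocNorm.congr` of `h1_loc`.
-/

set_option autoImplicit false

open Set Filter Topology Metric
open scoped ContDiff Manifold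

namespace Pool.Agent.Nef6.KC

variable {n : ℕ}

private theorem Glue_hb {y w : EuclideanSpace ℂ (Fin n)} (h2 : ‖y‖ < 1) : 0 ≤ hb y w := by
  have h : 0 < 1 - ‖y‖ ^ 2 := by nlinarith [norm_nonneg y]
  unfold hb
  positivity

private theorem Glue_form {d A B : ℝ} (hd : 0 < d) {x : E n} (hx : x.1 ≠ 0) (h2 : ‖x.2‖ < 1)
    (hr : rad d x < 1) (v : E n) :
    h1 d A B x v = alA d A (rad d x) *
      (4 * (rad d x * ‖Dz d x v‖ ^ 2 / (d ^ 2 * ‖x.1‖ ^ 2 * (1 - rad d x) ^ 2))) +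
      beA d A B (rad d x) * (4 * (hb x.2 v.2 / (1 - rad d x))) := by
  have hz : 0 < ‖x.1‖ := norm_pos_iff.mpr hx
  have hs : 0 < rad d x := rad_pos d h2 hx
  have hs1 : 0 < 1 - rad d x := by linarith
  have hR : 0 < 1 - ‖x.2‖ ^ 2 := by nlinarith [norm_nonneg x.2]
  have hRd : 0 < (1 - ‖x.2‖ ^ 2) ^ d := Real.rpow_pos_of_pos hR d
  have h3 : rad d x ^ d = ‖x.1‖ ^ 2 / (1 - ‖x.2‖ ^ 2) ^ d := rad_rpow hd h2
  have h4 : rad d x ^ (d - 1) * rad d x = ‖x.1‖ ^ 2 / (1 - ‖x.2‖ ^ 2) ^ d := by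
    rw [← h3, Real.rpow_sub_one hs.ne', div_mul_cancel₀ _ hs.ne']
  have hd0 : d ≠ 0 := hd.ne'
  have e1 : alA d A (rad d x) *
      (4 * (rad d x * ‖Dz d x v‖ ^ 2 / (d ^ 2 * ‖x.1‖ ^ 2 * (1 - rad d x) ^ 2))) =
      A * (rad d x ^ (d - 1) * rad d x) * (‖Dz d x v‖ ^ 2 / ‖x.1‖ ^ 2) := by
    unfold alA
    have := hs1.ne'
    field_simp
  have e2 : beA d A B (rad d x) * (4 * (hb x.2 v.2 / (1 - rad d x))) =
      (B + A * d * rad d x ^ d) * hb x.2 v.2 := by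
    unfold beA
    have := hs1.ne'
    field_simp
  rw [e1, e2, h4, h3]
  unfold h1
  have := hRd.ne'
  field_simp
  ring

private theorem Glue_P1 {d : ℝ} {x : E n} (h2 : ‖x.2‖ < 1) (v : E n) :
    0 ≤ 4 * (rad d x * ‖Dz d x v‖ ^ 2 / (d ^ 2 * ‖x.1‖ ^ 2 * (1 - rad d x) ^ 2)) := by
  have := rad_nonneg d h2
  positivity

private theorem Glue_P2 {d : ℝ} {x : E n} (h2 : ‖x.2‖ < 1) (hr : rad d x < 1) (v : E n) :
    0 ≤ 4 * (hb x.2 v.2 / (1 - rad d x)) := by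
  have h3 := Glue_hb (w := v.2) h2
  have h4 : 0 < 1 - rad d x := by linarith
  positivity

private theorem Glue_le {d A B : ℝ} (hd : 0 < d) {x : E n} (hx : x.1 ≠ 0) (h2 : ‖x.2‖ < 1)
    (hr : rad d x < 1) (hA : alA d A (rad d x) ≤ 1) (hB : beA d A B (rad d x) ≤ 1) (v : E n) :
    h1 d A B x v ≤ cone d x v := by
  rw [← hz_eq hd hx h2 hr v, Glue_form hd hx h2 hr v]
  unfold hz
  rw [mul_add]
  exact add_le_add (mul_le_of_le_one_left (Glue_P1 h2 v) hA)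
    (mul_le_of_le_one_left (Glue_P2 h2 hr v) hB)

private theorem Glue_ge {d A B : ℝ} (hd : 0 < d) {x : E n} (hx : x.1 ≠ 0) (h2 : ‖x.2‖ < 1)
    (hr : rad d x < 1) (hA : 1 ≤ alA d A (rad d x)) (hB : 1 ≤ beA d A B (rad d x)) (v : E n) :
    cone d x v ≤ h1 d A B x v := by
  rw [← hz_eq hd hx h2 hr v, Glue_form hd hx h2 hr v]
  unfold hz
  rw [mul_add]
  exact add_le_add (le_mul_of_one_le_left (Glue_P1 h2 v) hA)
    (le_mul_of_one_le_left (Glue_P2 h2 hr v) hB)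

theorem Nz_out {d A B σ s₁ : ℝ} (G : GlueData d A B σ s₁) {x : E n} (hx : x.1 ≠ 0)
    (h2 : ‖x.2‖ < 1) (hr : rad d x < 1) (h1 : s₁ ≤ rad d x) (v : E n) :
    Nz d A B σ x v = √(cone d x v) := by
  have hq := G.out (rad d x) h1 hr
  unfold Nz
  rw [if_pos (G.hs.trans_le h1), max_eq_left (Glue_le G.hd hx h2 hr hq.1 hq.2 v)]

theorem Nz_loc {d A B σ s₁ : ℝ} (G : GlueData d A B σ s₁) {W : Set (E n)} (hW : IsOpen W)
    (hW1 : ∀ x ∈ W, ‖x.2‖ < 1 ∧ rad d x < 1) {x : E n} (hx : x ∈ W) :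
    ∃ U ⊆ W, x ∈ U ∧ LocNorm (Nz d A B σ) U := by
  have hd0 : 0 < d := G.hd
  have hc : ContinuousOn (rad d : E n → ℝ) W :=
    (rad_cont hd0).mono fun y hy => (hW1 y hy).1
  have hss := G.hσ
  by_cases hx2 : σ < rad d x
  · have hx1 : x.1 ≠ 0 := by
      intro h0
      rw [rad_zero hd0 h0] at hx2
      linarith
    obtain ⟨U', hxU, hU1, hU2⟩ := cone_loc hd0 hx1 (hW1 x hx).1 (hW1 x hx).2
    have hopW : IsOpen (W ∩ {y | σ < rad d y}) :=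
      hc.isOpen_inter_preimage hW isOpen_Ioi
    have hop : IsOpen (W ∩ {y | σ < rad d y} ∩ U') := hopW.inter hU2.op
    refine ⟨W ∩ {y | σ < rad d y} ∩ U', fun y hy => hy.1.1, ⟨⟨hx, hx2⟩, hxU⟩, ?_⟩
    have a1 : LocNorm (fun x v : E n => √(cone d x v)) (W ∩ {y | σ < rad d y} ∩ U') :=
      hU2.congr hop (fun y hy => hy.2) (fun _ _ _ => rfl)
    have a2 : LocNorm (fun x v : E n => √(h1 d A B x v)) (W ∩ {y | σ < rad d y} ∩ U') :=
      (h1_loc hd0 G.hA G.hB).congr hop (fun y hy => (hW1 y hy.1.1).1) (fun _ _ _ => rfl)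
    refine (a1.max a2).congr hop subset_rfl fun y hy v => ?_
    have hy2 : σ < rad d y := hy.1.2
    unfold Nz
    rw [if_pos hy2]
    rcases le_total (cone d y v) (h1 d A B y v) with h3 | h3
    · rw [max_eq_right h3, max_eq_right (Real.sqrt_le_sqrt h3)]
    · rw [max_eq_left h3, max_eq_left (Real.sqrt_le_sqrt h3)]
  · obtain ⟨s₂, hs0, hs⟩ := G.inn
    have hop : IsOpen (W ∩ {y | rad d y < s₂}) :=
      hc.isOpen_inter_preimage hW isOpen_Iio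
    refine ⟨W ∩ {y | rad d y < s₂}, fun y hy => hy.1, ⟨hx, ?_⟩, ?_⟩
    · exact (not_lt.mp hx2).trans_lt hs0
    · refine (h1_loc hd0 G.hA G.hB).congr hop (fun y hy => (hW1 y hy.1).1) fun y hy v => ?_
      have hy2 : rad d y < s₂ := hy.2
      by_cases hy3 : σ < rad d y
      · have hy1 : y.1 ≠ 0 := by
          intro h0
          rw [rad_zero hd0 h0] at hy3
          linarith
        have b3 := hs (rad d y) hy3.le hy2.le
        unfold Nz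
        rw [if_pos hy3, max_eq_right (Glue_ge hd0 hy1 (hW1 y hy.1).1 (hW1 y hy.1).2 b3.1 b3.2 v)]
      · unfold Nz
        rw [if_neg hy3]

end Pool.Agent.Nef6.KC
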