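import Pool.Agent.H.MP_6a1d6a_ag.KC.Atl
import Pool.Agent.H.MP_6a1d6a_ag.KC.Comp

/-!
MP_6a1d6a_ag/KC, module Main: the cotangent bundle of a cone manifold is nef.
-/

set_option autoImplicit false

open Set Filter Topology Metric
open scoped ContDiff Manifold

namespace Pool.Agent.Nef6.KC

variable {n : ℕ} {Y : Type} [TopologicalSpace Y] [ChartedSpace (E n) Y] [IsManifold 𝓘(ℂ, E n) ω Y]

theorem nef_cone (X : ConeManifold n Y) : CotangentNef (E n) Y := by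
  classical
  have hfin : Finite X.ι := X.fin
  choose A B σ s1 hG hs1b using fun i => num_all (X.d_pos i) (X.R_pos i) (X.deep i)
  -- the deep part
  set K : Set Y := ⋃ i, {y | ∃ φ ∈ X.tub i, y ∈ φ.source ∧ rad (X.d i) (φ y) ≤ s1 i} with hK
  have hKc : IsClosed K := isClosed_iUnion_of_finite fun i => X.closed i _ (hs1b i)
  have hUo : IsOpen Kᶜ := hKc.isOpen_compl
  have hUi : interior Kᶜ = Kᶜ := hUo.interior_eq
  have hout : ∀ i, ∀ φ ∈ X.tub i, ∀ φ' ∈ X.reg, ∀ y ∈ φ.source, y ∈ φ'.source → y ∉ K → ∀ v,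
      Nz (X.d i) (A i) (B i) (σ i) (φ y) v = √(cone (X.d i) (φ y) v) := by
    intro i φ h φ' h' y hy hy' hyK v
    have h0 := (X.reg_tub i φ' h' φ h y hy' hy).1
    have hT := tube_lt ((X.tub_chart i φ h).2 (φ.map_source hy))
    refine Nz_out (hG i) h0 hT.1 hT.2 ?_ v
    by_contra hcon
    push Not at hcon
    exact hyK (mem_iUnion.2 ⟨i, φ, h, hy, hcon.le⟩)
  refine nef_of_atlas (J := {φ // φ ∈ X.reg} ⊕ (Σ i, {φ // φ ∈ X.tub i}))
    (fun j => j.elim (fun φ => φ.1.restr Kᶜ) fun q => q.2.1)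
    (fun j => j.elim (fun _ x v => √(hyp x v)) fun q => Nz (X.d q.1) (A q.1) (B q.1) (σ q.1)) ?_ ?_ ?_ ?_
  · rintro (φ | q)
    · exact restr_mem_maximalAtlas (G := contDiffGroupoid ω 𝓘(ℂ, E n)) (X.reg_chart _ φ.2).1 hUo
    · exact (X.tub_chart _ _ q.2.2).1
  · intro y
    by_cases hy : ∃ i, ∃ φ ∈ X.tub i, y ∈ φ.source
    · obtain ⟨i, φ, h, hyφ⟩ := hy
      exact ⟨Sum.inr ⟨i, φ, h⟩, hyφ⟩
    · obtain ⟨φ, h, hyφ⟩ := (X.cover' y).resolve_right hy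
      refine ⟨Sum.inl ⟨φ, h⟩, ?_⟩
      show y ∈ (φ.restr Kᶜ).source
      rw [φ.restr_source, hUi]
      refine ⟨hyφ, ?_⟩
      intro hyK
      obtain ⟨i, φ', h', hy', -⟩ := mem_iUnion.1 hyK
      exact hy ⟨i, φ', h', hy'⟩
  · rintro (φ | q) x hx
    · refine ⟨_, subset_rfl, hx, ?_⟩
      refine hyp_loc.congr (φ.1.restr Kᶜ).open_target ?_ fun _ _ _ => rfl
      intro z hz
      have h1 : z ∈ φ.1.target := hz.1
      exact (X.reg_chart _ φ.2).2 h1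
    · exact Nz_loc (hG _) q.2.1.open_target
        (fun z hz => tube_lt ((X.tub_chart _ _ q.2.2).2 hz)) hx
  · have hsrc : ∀ (φ : OpenPartialHomeomorph Y (E n)) (y : Y), y ∈ (φ.restr Kᶜ).source →
        y ∈ φ.source ∧ y ∉ K := by
      intro φ y hy
      rw [φ.restr_source, hUi] at hy
      exact hy
    rintro (φ | ⟨i, φ⟩) (φ' | ⟨j, φ'⟩) y hy hy' v
    · show √(hyp _ _) = √(hyp _ _)
      exact congrArg _ (X.reg_isom _ φ.2 _ φ'.2 y (hsrc _ _ hy).1 (hsrc _ _ hy').1 v)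
    · have hy1 := hsrc _ _ hy
      show Nz (X.d j) (A j) (B j) (σ j) (φ'.1 y) (fderiv ℂ (φ'.1 ∘ φ.1.symm) (φ.1 y) v) = √(hyp (φ.1 y) v)
      rw [hout j φ'.1 φ'.2 φ.1 φ.2 y hy' hy1.1 hy1.2,
        (X.reg_tub j _ φ.2 _ φ'.2 y hy1.1 hy').2]
    · have hy1 := hsrc _ _ hy'
      have hyy : y ∈ φ.1.source := hy
      show √(hyp (φ'.1 y) (fderiv ℂ (φ'.1 ∘ φ.1.symm) (φ.1 y) v)) = Nz (X.d i) (A i) (B i) (σ i) (φ.1 y) v
      rw [hout i φ.1 φ.2 φ'.1 φ'.2 y hy hy1.1 hy1.2,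
        ← (X.reg_tub i _ φ'.2 _ φ.2 y hy1.1 hy).2,
        CC.tr_comp (X.tub_chart _ _ φ.2).1 (X.reg_chart _ φ'.2).1 (X.tub_chart _ _ φ.2).1 hyy hy1.1 hyy,
        CC.tr_id hyy]
    · obtain rfl := X.disj' i j _ φ.2 _ φ'.2 y hy hy'
      exact comp_tube X i (hG i) φ.2 φ'.2 hy hy' v

end Pool.Agent.Nef6.KC
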